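import Pool.Agent.Y826.ZL.Defs

/-!
# Y826-TII: arithmetic of the decomposition `q = a r u v`
-/

open Finset

namespace Pool.Agent.Y826.ZL.Y61

open Pool.Agent.Y826.Z

/-! ### smooth and rough parts -/

lemma smp_pos (D q : ℕ) : 0 < smp D q := by
  unfold smp
  exact Finset.prod_pos fun p hp => (Nat.prime_of_mem_primeFactors (mem_filter.mp hp).1).pos

lemma rop_pos (D q : ℕ) : 0 < rop D q := by
  unfold rop
  exact Finset.prod_pos fun p hp => (Nat.prime_of_mem_primeFactors (mem_filter.mp hp).1).pos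

lemma smp_mul_rop {D q : ℕ} (hq : Squarefree q) : smp D q * rop D q = q := by
  unfold smp rop
  have h : q.primeFactors.filter (fun p => D < p) = q.primeFactors.filter (fun p => ¬ p ≤ D) := by
    apply filter_congr; intro p _; simp
  rw [h, Finset.prod_filter_mul_prod_filter_not]
  exact Nat.prod_primeFactors_of_squarefree hq

lemma smp_dvd {D q : ℕ} (hq : Squarefree q) : smp D q ∣ q := ⟨_, (smp_mul_rop hq).symm⟩

lemma rop_dvd {D q : ℕ} (hq : Squarefree q) : rop D q ∣ q :=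
  ⟨smp D q, by rw [mul_comm]; exact (smp_mul_rop hq).symm⟩

lemma prime_of_dvd_rop {D q p : ℕ} (hp : p.Prime) (h : p ∣ rop D q) : D < p := by
  unfold rop at h
  rw [Prime.dvd_finsetProd_iff hp.prime] at h
  obtain ⟨l, hl, hpl⟩ := h
  rw [mem_filter] at hl
  have hl' := Nat.prime_of_mem_primeFactors hl.1
  rw [(Nat.prime_dvd_prime_iff_eq hp hl').mp hpl]
  exact hl.2

lemma prime_of_dvd_smp {D q p : ℕ} (hp : p.Prime) (h : p ∣ smp D q) : p ≤ D := by
  unfold smp at h
  rw [Prime.dvd_finsetProd_iff hp.prime] at h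
  obtain ⟨l, hl, hpl⟩ := h
  rw [mem_filter] at hl
  have hl' := Nat.prime_of_mem_primeFactors hl.1
  rw [(Nat.prime_dvd_prime_iff_eq hp hl').mp hpl]
  exact hl.2

lemma smp_mul {D m n : ℕ} (h : m.Coprime n) : smp D (m * n) = smp D m * smp D n := by
  unfold smp
  rw [h.primeFactors_mul, filter_union, prod_union]
  exact disjoint_filter_filter h.disjoint_primeFactors

lemma rop_mul {D m n : ℕ} (h : m.Coprime n) : rop D (m * n) = rop D m * rop D n := by
  unfold rop
  rw [h.primeFactors_mul, filter_union, prod_union]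
  exact disjoint_filter_filter h.disjoint_primeFactors

lemma smp_one (D : ℕ) : smp D 1 = 1 := by simp [smp]
lemma rop_one (D : ℕ) : rop D 1 = 1 := by simp [rop]

lemma smp_prod {ι : Type*} [DecidableEq ι] (D : ℕ) (s : Finset ι) (f : ι → ℕ) (hs : Squarefree (∏ j ∈ s, f j)) :
    smp D (∏ j ∈ s, f j) = ∏ j ∈ s, smp D (f j) := by
  induction s using Finset.induction_on with
  | empty => simp [smp_one]
  | insert a s ha ih =>
    rw [prod_insert ha] at hs ⊢
    rw [prod_insert ha, smp_mul (Nat.coprime_of_squarefree_mul hs), ih (Squarefree.of_mul_right hs)]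

lemma rop_prod {ι : Type*} [DecidableEq ι] (D : ℕ) (s : Finset ι) (f : ι → ℕ) (hs : Squarefree (∏ j ∈ s, f j)) :
    rop D (∏ j ∈ s, f j) = ∏ j ∈ s, rop D (f j) := by
  induction s using Finset.induction_on with
  | empty => simp [rop_one]
  | insert a s ha ih =>
    rw [prod_insert ha] at hs ⊢
    rw [prod_insert ha, rop_mul (Nat.coprime_of_squarefree_mul hs), ih (Squarefree.of_mul_right hs)]

lemma smp_eq_self {D q : ℕ} (hq : Squarefree q) (h : ∀ p : ℕ, p.Prime → p ∣ q → p ≤ D) : smp D q = q := by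
  unfold smp
  rw [filter_true_of_mem]
  · exact Nat.prod_primeFactors_of_squarefree hq
  · intro p hp
    exact h p (Nat.prime_of_mem_primeFactors hp) (Nat.dvd_of_mem_primeFactors hp)

lemma rop_eq_one {D q : ℕ} (h : ∀ p : ℕ, p.Prime → p ∣ q → p ≤ D) : rop D q = 1 := by
  unfold rop
  rw [filter_false_of_mem]
  · simp
  · intro p hp
    have := h p (Nat.prime_of_mem_primeFactors hp) (Nat.dvd_of_mem_primeFactors hp)
    omega

lemma rop_eq_self {D q : ℕ} (hq : Squarefree q) (h : ∀ p : ℕ, p.Prime → p ∣ q → D < p) : rop D q = q := by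
  unfold rop
  rw [filter_true_of_mem]
  · exact Nat.prod_primeFactors_of_squarefree hq
  · intro p hp
    exact h p (Nat.prime_of_mem_primeFactors hp) (Nat.dvd_of_mem_primeFactors hp)

lemma smp_smp {D q : ℕ} (hq : Squarefree q) : smp D (smp D q) = smp D q :=
  smp_eq_self (hq.squarefree_of_dvd (smp_dvd hq)) fun _ hp h => prime_of_dvd_smp hp h

lemma rop_smp (D q : ℕ) : rop D (smp D q) = 1 := rop_eq_one fun _ hp h => prime_of_dvd_smp hp h

lemma coprime_smp_rop (D q q' : ℕ) : (smp D q).Coprime (rop D q') := by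
  apply Nat.coprime_of_dvd
  intro p hp h1 h2
  have := prime_of_dvd_smp hp h1
  have := prime_of_dvd_rop hp h2
  omega

lemma smp_le {D q : ℕ} (hq : Squarefree q) : smp D q ≤ q :=
  Nat.le_of_dvd (Nat.pos_of_ne_zero hq.ne_zero) (smp_dvd hq)

lemma rop_le {D q : ℕ} (hq : Squarefree q) : rop D q ≤ q :=
  Nat.le_of_dvd (Nat.pos_of_ne_zero hq.ne_zero) (rop_dvd hq)

/-! ### products of tuples -/

variable {K : ℕ}

lemma Pr_mul (x y : Fin K → ℕ) : Pr (fun j => x j * y j) = Pr x * Pr y := by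
  unfold Pr; rw [prod_mul_distrib]

lemma dvd_Pr (x : Fin K → ℕ) (j : Fin K) : x j ∣ Pr x := dvd_prod_of_mem _ (mem_univ j)

lemma sqf_of_Pr {x : Fin K → ℕ} (h : Squarefree (Pr x)) (j : Fin K) : Squarefree (x j) :=
  h.squarefree_of_dvd (dvd_Pr x j)

lemma cop_of_Pr {x : Fin K → ℕ} (h : Squarefree (Pr x)) {i j : Fin K} (hij : i ≠ j) :
    (x i).Coprime (x j) := by
  have h1 : x i * x j ∣ Pr x := by
    unfold Pr
    rw [← mul_prod_erase univ x (mem_univ i)]
    exact mul_dvd_mul_left _ (dvd_prod_of_mem _ (mem_erase.mpr ⟨hij.symm, mem_univ j⟩))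
  exact Nat.coprime_of_squarefree_mul (h.squarefree_of_dvd h1)

lemma Pr_dvd_Pr {x y : Fin K → ℕ} (h : ∀ j, x j ∣ y j) : Pr x ∣ Pr y :=
  prod_dvd_prod_of_dvd _ _ fun j _ => h j

lemma Pr_pos {x : Fin K → ℕ} (h : ∀ j, 0 < x j) : 0 < Pr x := prod_pos fun j _ => h j

/-- a product of pairwise coprime divisors divides -/
lemma Pr_dvd_int {x : Fin K → ℕ} (h : Squarefree (Pr x)) {z : ℤ} (hz : ∀ j, (x j : ℤ) ∣ z) :
    ((Pr x : ℕ) : ℤ) ∣ z := by
  unfold Pr
  push_cast
  apply Finset.prod_dvd_of_coprime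
  · intro i _ j _ hij
    exact Nat.isCoprime_iff_coprime.mpr (cop_of_Pr h hij)
  · intro j _
    exact hz j

/-! ### the class of a tuple -/

/-- the slopes are nonzero -/
lemma slope_ne {h : Fin K → ℤ × ℤ} {W b : ℕ} (H : Hyp h W b) (j : Fin K) : (h j).1 ≠ 0 := by
  intro h0
  obtain ⟨p, hpW, hp⟩ := Nat.exists_infinite_primes (W + 1)
  refine H.h0 p hp (fun hd => ?_) j (by rw [h0]; exact dvd_zero _)
  have := Nat.le_of_dvd H.wpos hd
  omega

/-- the slopes are units modulo the divisors -/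
lemma cop_slope {h : Fin K → ℤ × ℤ} {W b : ℕ} (H : Hyp h W b) {e : ℕ} (he : Squarefree (W * e))
    (j : Fin K) : IsCoprime (h j).1 (e : ℤ) := by
  rw [Int.isCoprime_iff_gcd_eq_one]
  by_contra hg
  obtain ⟨p, hp, hpg⟩ := Nat.exists_prime_and_dvd hg
  have h1 : (p : ℤ) ∣ (h j).1 := (Int.natCast_dvd_natCast.mpr hpg).trans (Int.gcd_dvd_left _ _)
  have h2 : p ∣ e := Int.natCast_dvd_natCast.mp
    ((Int.natCast_dvd_natCast.mpr hpg).trans (Int.gcd_dvd_right _ _))
  have hcop : W.Coprime e := Nat.coprime_of_squarefree_mul he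
  have hpW : ¬ p ∣ W := fun hpW =>
    hp.one_lt.ne' (Nat.dvd_one.mp ((hcop : W.gcd e = 1) ▸ Nat.dvd_gcd hpW h2))
  exact H.h0 p hp hpW j h1

/-- a root of a linear form modulo a number prime to the slope -/
lemma exists_root {a c : ℤ} {e : ℕ} (he : e ≠ 0) (h : IsCoprime a (e : ℤ)) :
    ∃ k : ℕ, ∀ x : ℕ, x ≡ k [MOD e] → (e : ℤ) ∣ a * (x : ℤ) + c := by
  have he0 : (e : ℤ) ≠ 0 := by exact_mod_cast he
  obtain ⟨u, v, huv⟩ := h
  refine ⟨((-(c * u)) % (e : ℤ)).toNat, fun x hx => ?_⟩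
  have h1 : ((((-(c * u)) % (e : ℤ)).toNat : ℕ) : ℤ) = (-(c * u)) % (e : ℤ) :=
    Int.toNat_of_nonneg (Int.emod_nonneg _ he0)
  have h2 : (x : ℤ) ≡ (-(c * u)) % (e : ℤ) [ZMOD (e : ℤ)] := by
    rw [← h1]
    exact (Int.natCast_modEq_iff).mpr hx
  have h3 : (x : ℤ) ≡ -(c * u) [ZMOD (e : ℤ)] := h2.trans (Int.mod_modEq _ _)
  have h4 := (h3.mul_left a).add_right c
  have h5 : a * (-(c * u)) + c = (e : ℤ) * (c * v) := by linear_combination (-c) * huv
  rw [h5] at h4
  exact (Int.modEq_zero_iff_dvd).mp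
    (h4.trans ((Int.modEq_zero_iff_dvd).mpr (dvd_mul_right _ _)))

lemma exists_class_aux (h : Fin K → ℤ × ℤ) {W b : ℕ} (H : Hyp h W b) (e : Fin K → ℕ) (hW : 0 < W)
    (he : Squarefree (W * Pr e)) (s : Finset (Fin K)) :
    ∃ x : ℕ, x ≡ b [MOD W] ∧ ∀ j ∈ s, (e j : ℤ) ∣ (h j).1 * (x : ℤ) + (h j).2 := by
  induction s using Finset.induction_on with
  | empty => exact ⟨b, Nat.ModEq.refl _, by simp⟩
  | insert i s hi ih =>
    obtain ⟨x, hx, hxs⟩ := ih
    have hei : Squarefree (e i) := sqf_of_Pr (Squarefree.of_mul_right he) i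
    have hei0 : (e i : ℤ) ≠ 0 := by exact_mod_cast hei.ne_zero
    have hcop : (W * ∏ j ∈ s, e j).Coprime (e i) := by
      have h1 : (W * ∏ j ∈ s, e j) * e i ∣ W * Pr e := by
        rw [mul_assoc]
        apply mul_dvd_mul_left
        have : (∏ j ∈ s, e j) * e i = ∏ j ∈ insert i s, e j := by rw [prod_insert hi, mul_comm]
        rw [this]
        exact prod_dvd_prod_of_subset _ _ _ (subset_univ _)
      exact Nat.coprime_of_squarefree_mul (he.squarefree_of_dvd h1)
    obtain ⟨k0, hk0⟩ := exists_root (c := (h i).2) hei.ne_zero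
      (cop_slope H (he.squarefree_of_dvd (mul_dvd_mul_left _ (dvd_Pr e i))) i)
    obtain ⟨k, hk1, hk2⟩ := Nat.chineseRemainder hcop x k0
    refine ⟨k, ?_, ?_⟩
    · exact (hk1.of_mul_right _).trans hx
    · intro j hj
      rw [mem_insert] at hj
      rcases hj with rfl | hj
      · exact hk0 k hk2
      · have h1 : (k : ℤ) ≡ (x : ℤ) [ZMOD (e j : ℤ)] := by
          rw [Int.natCast_modEq_iff]
          exact hk1.of_dvd ((dvd_prod_of_mem e hj).trans (dvd_mul_left _ _))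
        have h2 := ((h1.mul_left (h j).1).add_right (h j).2)
        exact (Int.modEq_zero_iff_dvd).mp (h2.trans ((Int.modEq_zero_iff_dvd).mpr (hxs j hj)))

/-- the class of a tuple, compatible with all its divisors -/
lemma exists_class (h : Fin K → ℤ × ℤ) {W b : ℕ} (H : Hyp h W b) (e : Fin K → ℕ)
    (he : Squarefree (W * Pr e)) :
    ∃ x0 : ℕ, x0.Coprime (W * Pr e) ∧ ∀ d : Fin K → ℕ, (∀ j, d j ∣ e j) → ∀ x : ℕ,
      (x ≡ x0 [MOD (W * Pr d)] ↔ x ≡ b [MOD W] ∧ Cd h d x) := by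
  obtain ⟨x0, h1, h2⟩ := exists_class_aux (b := b) h H e H.wpos he univ
  refine ⟨x0, ?_, ?_⟩
  · apply Nat.coprime_of_dvd
    intro p hp hpx hpe
    rcases (hp.dvd_mul).mp hpe with hpW | hpP
    · have h3 : p ∣ b := ((h1.of_dvd hpW).dvd_iff dvd_rfl).mp hpx
      exact hp.one_lt.ne' (Nat.dvd_one.mp ((H.bW : b.gcd W = 1) ▸ Nat.dvd_gcd h3 hpW))
    · have hcop : W.Coprime (Pr e) := Nat.coprime_of_squarefree_mul he
      have hpW : ¬ p ∣ W := fun hpW => hp.one_lt.ne' (Nat.dvd_one.mp ((hcop : W.gcd (Pr e) = 1) ▸ Nat.dvd_gcd hpW hpP))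
      unfold Pr at hpP
      rw [Prime.dvd_finsetProd_iff hp.prime] at hpP
      obtain ⟨j, _, hj⟩ := hpP
      have h3 : (p : ℤ) ∣ (h j).1 * (x0 : ℤ) + (h j).2 :=
        (Int.natCast_dvd_natCast.mpr hj).trans (h2 j (mem_univ j))
      have h4 : (p : ℤ) ∣ (h j).2 :=
        (Int.dvd_add_right ((Int.natCast_dvd_natCast.mpr hpx).mul_left _)).mp h3
      exact H.h1 p hp hpW j h4
  · intro d hd x
    have hd' : Squarefree (W * Pr d) := he.squarefree_of_dvd (mul_dvd_mul_left _ (Pr_dvd_Pr hd))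
    have hcop : W.Coprime (Pr d) := Nat.coprime_of_squarefree_mul hd'
    have h2' : ∀ j, (d j : ℤ) ∣ (h j).1 * (x0 : ℤ) + (h j).2 := fun j =>
      (Int.natCast_dvd_natCast.mpr (hd j)).trans (h2 j (mem_univ j))
    rw [← Nat.modEq_and_modEq_iff_modEq_mul hcop]
    constructor
    · rintro ⟨h3, h4⟩
      refine ⟨h3.trans h1, fun j => ?_⟩
      have h5 : (x : ℤ) ≡ x0 [ZMOD (d j : ℤ)] := by
        rw [Int.natCast_modEq_iff]
        exact h4.of_dvd (dvd_Pr d j)
      have h6 := (h5.mul_left (h j).1).add_right (h j).2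
      exact (Int.modEq_zero_iff_dvd).mp (h6.trans ((Int.modEq_zero_iff_dvd).mpr (h2' j)))
    · rintro ⟨h3, h4⟩
      refine ⟨h3.trans h1.symm, ?_⟩
      rw [← Int.natCast_modEq_iff]
      have h5 : ((Pr d : ℕ) : ℤ) ∣ (x : ℤ) - x0 := by
        apply Pr_dvd_int (Squarefree.of_mul_right hd')
        intro j
        have := dvd_sub (h4 j) (h2' j)
        have h6 : (h j).1 * (x : ℤ) + (h j).2 - ((h j).1 * (x0 : ℤ) + (h j).2) =
          (h j).1 * (x - x0) := by ring
        rw [h6] at this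
        exact (cop_slope H (hd'.squarefree_of_dvd (mul_dvd_mul_left _ (dvd_Pr d j)))
          j).symm.dvd_of_dvd_mul_left this
      exact (Int.modEq_iff_dvd.mpr (by
        have := (dvd_neg).mpr h5
        rwa [neg_sub] at this))

end Pool.Agent.Y826.ZL.Y61
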