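import Pool.Agent.Y826.ZL.Y61.T9

/-!
# Y826-TII: the two parts for large `X`
-/

open Finset Filter

namespace Pool.Agent.Y826.ZL.Y61

open Pool.Agent.Y826.Z

variable {K : ℕ}

lemma alpha_sq {M : ℕ} {α : ℕ → ℝ} {L : ℝ} (hL : 0 ≤ L)
    (hα : ∀ m ∈ Ioc M (2 * M), |α m| ≤ tau m * L) :
    ∑ m ∈ Ioc M (2 * M), α m ^ 2 ≤ L ^ 2 * ((2 * M : ℕ) * (1 + Real.log (2 * M : ℕ)) ^ 4) := by
  refine le_trans ?_ (rc_sq_sum (P := 1) hL hα)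
  have h1 : ∑ m ∈ Ioc M (2 * M), α m ^ 2 = ∑ m ∈ Ioc M (2 * M), rc M 1 α m ^ 2 := by
    refine sum_congr rfl fun m hm => ?_
    unfold rc
    rw [if_pos ⟨(mem_Ioc.mp hm).1, Nat.coprime_one_right m⟩]
  rw [h1]
  apply sum_le_sum_of_subset_of_nonneg
  · intro m hm
    rw [mem_Ioc] at hm
    rw [mem_Icc]; omega
  · intro m _ _; exact sq_nonneg _

/-- the numerical facts used in the first part -/
lemma part1_num {X ℓ : ℝ} {K M N R : ℕ} {RA RB Th Al SS' z : ℝ}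
    (hℓ : 1 ≤ ℓ) (hM : 1 ≤ M) (hMN : (M : ℝ) * N ≤ 16 * X)
    (hR : 1 + Real.log R ≤ 3 * ℓ) (h2M : 1 + Real.log (2 * M : ℕ) ≤ 2 * ℓ)
    (hRA : 0 < RA) (hRB : 0 < RB)
    (hTh : Th ≤ (2 * (1 + Real.log R)) ^ K * (RA * RB)) (hTh0 : 0 ≤ Th)
    (hAl : Al ≤ ℓ ^ 2 * ((2 * M : ℕ) * (1 + Real.log (2 * M : ℕ)) ^ 4)) (hAl0 : 0 ≤ Al)
    (hz : 0 ≤ z) (hSS : SS' ≤ (M * (N : ℝ) ^ 2 / (RA * RB)) * z) :
    (Th * Al) * SS' ≤ X ^ 2 * ((6 ^ K * 8192) * ℓ ^ (K + 6) * z) := by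
  have hMN0 : (0 : ℝ) ≤ (M : ℝ) * N := by positivity
  have hX0 : 0 ≤ X := by linarith
  have h1 : Th ≤ (6 * ℓ) ^ K * (RA * RB) := by
    refine hTh.trans (mul_le_mul_of_nonneg_right ?_ (by positivity))
    apply pow_le_pow_left₀ (by have := one_add_log_nonneg R; linarith)
    linarith
  have h2 : Al ≤ ℓ ^ 2 * ((2 * M) * (2 * ℓ) ^ 4) := by
    refine hAl.trans (mul_le_mul_of_nonneg_left ?_ (sq_nonneg _))
    push_cast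
    apply mul_le_mul_of_nonneg_left _ (by positivity)
    apply pow_le_pow_left₀ _ (by simpa using h2M)
    simpa using one_add_log_nonneg (2 * M)
  have hTA : Th * Al ≤ ((6 * ℓ) ^ K * (RA * RB)) * (ℓ ^ 2 * ((2 * M) * (2 * ℓ) ^ 4)) :=
    mul_le_mul h1 h2 hAl0 (by positivity)
  have hb0 : 0 ≤ (M * (N : ℝ) ^ 2 / (RA * RB)) * z := by positivity
  calc (Th * Al) * SS' ≤ (Th * Al) * ((M * (N : ℝ) ^ 2 / (RA * RB)) * z) :=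
        mul_le_mul_of_nonneg_left hSS (mul_nonneg hTh0 hAl0)
    _ ≤ (((6 * ℓ) ^ K * (RA * RB)) * (ℓ ^ 2 * ((2 * M) * (2 * ℓ) ^ 4))) * ((M * (N : ℝ) ^ 2 / (RA * RB)) * z) :=
        mul_le_mul_of_nonneg_right hTA hb0
    _ = ((M : ℝ) * N) ^ 2 * (6 ^ K * 32 * ℓ ^ (K + 6) * z) := by
        rw [mul_pow, mul_pow, pow_add]
        field_simp
        ring
    _ ≤ (16 * X) ^ 2 * (6 ^ K * 32 * ℓ ^ (K + 6) * z) := by
        apply mul_le_mul_of_nonneg_right _ (by positivity)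
        exact pow_le_pow_left₀ hMN0 hMN 2
    _ = _ := by ring

/-- the numerical facts used in the second part -/
lemma part2_num {X ℓ η y : ℝ} {K M N R F D Cm Cb e1 B : ℕ} {TW : ℝ}
    (hℓ : 1 ≤ ℓ) (hX : 1 ≤ X) (hMN : (M : ℝ) * N ≤ 16 * X)
    (hR : 1 + Real.log R ≤ 3 * ℓ) (h2M : 1 + Real.log (2 * M : ℕ) ≤ 2 * ℓ) (h2N : 1 + Real.log (2 * N : ℕ) ≤ 2 * ℓ)
    (h4 : 1 + Real.log ((2 * M) * (2 * N) : ℕ) ≤ 2 * ℓ) (hF : 1 + Real.log F ≤ 2 * ℓ) (hTW : 0 ≤ TW)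
    (hD : ℓ ^ B / 2 ≤ D) (hy : y = X ^ (-η))
    (hm : Real.sqrt (2 * M : ℕ) ≤ Real.sqrt X * y) (hn : Real.sqrt (2 * N : ℕ) ≤ Real.sqrt X * y)
    (hFF : (F : ℝ) ≤ Real.sqrt X * y) :
    ((1 + Real.log R) ^ (4 * K)) ^ 2 * ((ℓ ^ 2 * (TW * (1 + (1 + Real.log F) ^ e1)) *
        (Cm * ((2 * M) * (2 * N) : ℕ) * (1 + Real.log ((2 * M) * (2 * N) : ℕ)) ^ Cm)) *
      (Cb * (1 + Real.log F) ^ Cb *
        (Real.sqrt ((2 * M : ℕ) * (2 * N : ℕ)) / D + Real.sqrt (2 * M : ℕ) + Real.sqrt (2 * N : ℕ) + F) *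
          (Real.sqrt (ℓ ^ 2 * ((2 * M : ℕ) * (1 + Real.log (2 * M : ℕ)) ^ 4)) *
            Real.sqrt (ℓ ^ 2 * ((2 * N : ℕ) * (1 + Real.log (2 * N : ℕ)) ^ 4))))) ≤
      X ^ 2 * ((3 ^ (8 * K) * TW * 2 ^ e1 * Cm * 2 ^ Cm * Cb * 2 ^ Cb * 262144) *
        ℓ ^ (8 * K + e1 + Cm + Cb + 8) * (1 / ℓ ^ B + y)) := by
  have hX0 : 0 < X := by linarith
  have hy0 : 0 < y := by rw [hy]; exact Real.rpow_pos_of_pos hX0 _
  have hℓ0 : 0 < ℓ := by linarith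
  have hsX : Real.sqrt X * Real.sqrt X = X := Real.mul_self_sqrt hX0.le
  have hsX0 : 0 ≤ Real.sqrt X := Real.sqrt_nonneg _
  have hMN4 : (((2 * M) * (2 * N) : ℕ) : ℝ) ≤ 64 * X := by push_cast; nlinarith
  have hs4 : Real.sqrt ((2 * M : ℕ) * (2 * N : ℕ)) ≤ 8 * Real.sqrt X := by
    have : (8 : ℝ) * Real.sqrt X = Real.sqrt (64 * X) := by
      rw [Real.sqrt_mul (by norm_num : (0 : ℝ) ≤ 64)]
      congr 1
      rw [show (64 : ℝ) = 8 ^ 2 by norm_num, Real.sqrt_sq (by norm_num)]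
    rw [this]
    apply Real.sqrt_le_sqrt
    push_cast at hMN4 ⊢
    exact hMN4
  -- the pieces
  have p1 : ((1 + Real.log R) ^ (4 * K)) ^ 2 ≤ (3 * ℓ) ^ (8 * K) := by
    rw [← pow_mul]
    have : 4 * K * 2 = 8 * K := by ring
    rw [this]
    exact pow_le_pow_left₀ (one_add_log_nonneg R) hR _
  have p2 : 1 + (1 + Real.log F) ^ e1 ≤ 2 * (2 * ℓ) ^ e1 := by
    have h1 : (1 + Real.log F) ^ e1 ≤ (2 * ℓ) ^ e1 := pow_le_pow_left₀ (one_add_log_nonneg F) hF _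
    have h2 : (1 : ℝ) ≤ (2 * ℓ) ^ e1 := one_le_pow₀ (by linarith)
    linarith
  have p3 : (1 + Real.log ((2 * M) * (2 * N) : ℕ)) ^ Cm ≤ (2 * ℓ) ^ Cm :=
    pow_le_pow_left₀ (one_add_log_nonneg _) h4 _
  have p4 : (1 + Real.log F) ^ Cb ≤ (2 * ℓ) ^ Cb := pow_le_pow_left₀ (one_add_log_nonneg _) hF _
  have p5 : Real.sqrt ((2 * M : ℕ) * (2 * N : ℕ)) / D + Real.sqrt (2 * M : ℕ) + Real.sqrt (2 * N : ℕ) + F ≤
      16 * Real.sqrt X * (1 / ℓ ^ B + y) := by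
    have hD0 : (0 : ℝ) < D := lt_of_lt_of_le (by positivity) hD
    have h1 : Real.sqrt ((2 * M : ℕ) * (2 * N : ℕ)) / D ≤ 16 * Real.sqrt X * (1 / ℓ ^ B) := by
      rw [div_le_iff₀ hD0]
      have hpB : 0 < ℓ ^ B := pow_pos hℓ0 _
      calc Real.sqrt ((2 * M : ℕ) * (2 * N : ℕ)) ≤ 8 * Real.sqrt X := hs4
        _ = 16 * Real.sqrt X * (1 / ℓ ^ B) * (ℓ ^ B / 2) := by field_simp; norm_num
        _ ≤ 16 * Real.sqrt X * (1 / ℓ ^ B) * D := mul_le_mul_of_nonneg_left hD (by positivity)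
    have h2 : 0 ≤ Real.sqrt X * y := by positivity
    nlinarith
  have p6 : Real.sqrt (ℓ ^ 2 * ((2 * M : ℕ) * (1 + Real.log (2 * M : ℕ)) ^ 4)) *
            Real.sqrt (ℓ ^ 2 * ((2 * N : ℕ) * (1 + Real.log (2 * N : ℕ)) ^ 4)) ≤ 128 * ℓ ^ 6 * Real.sqrt X := by
    have q1 : ∀ Y : ℕ, 1 + Real.log Y ≤ 2 * ℓ → Real.sqrt (ℓ ^ 2 * ((Y : ℝ) * (1 + Real.log Y) ^ 4)) ≤
        (ℓ * (2 * ℓ) ^ 2) * Real.sqrt Y := by
      intro Y hY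
      have q2 : ℓ ^ 2 * ((Y : ℝ) * (1 + Real.log Y) ^ 4) ≤ (ℓ * (2 * ℓ) ^ 2) ^ 2 * Y := by
        have q3 : (1 + Real.log Y) ^ 4 ≤ (2 * ℓ) ^ 4 := pow_le_pow_left₀ (one_add_log_nonneg _) hY _
        calc ℓ ^ 2 * ((Y : ℝ) * (1 + Real.log Y) ^ 4) ≤ ℓ ^ 2 * ((Y : ℝ) * (2 * ℓ) ^ 4) :=
              mul_le_mul_of_nonneg_left (mul_le_mul_of_nonneg_left q3 (Nat.cast_nonneg _)) (sq_nonneg _)
          _ = _ := by ring
      calc _ ≤ Real.sqrt ((ℓ * (2 * ℓ) ^ 2) ^ 2 * Y) := Real.sqrt_le_sqrt q2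
        _ = _ := by rw [Real.sqrt_mul (sq_nonneg _), Real.sqrt_sq (by positivity)]
    have q4 := q1 (2 * M) h2M
    have q5 := q1 (2 * N) h2N
    calc _ ≤ ((ℓ * (2 * ℓ) ^ 2) * Real.sqrt (2 * M : ℕ)) * ((ℓ * (2 * ℓ) ^ 2) * Real.sqrt (2 * N : ℕ)) :=
          mul_le_mul q4 q5 (Real.sqrt_nonneg _) (by positivity)
      _ = 16 * ℓ ^ 6 * Real.sqrt ((2 * M : ℕ) * (2 * N : ℕ)) := by
          rw [Real.sqrt_mul (Nat.cast_nonneg _)]; ring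
      _ ≤ 16 * ℓ ^ 6 * (8 * Real.sqrt X) := mul_le_mul_of_nonneg_left hs4 (by positivity)
      _ = _ := by ring
  have hlF := pow_nonneg (one_add_log_nonneg F) e1
  have hlF' := pow_nonneg (one_add_log_nonneg F) Cb
  have hl4 := pow_nonneg (one_add_log_nonneg ((2 * M) * (2 * N))) Cm
  -- first factor
  have P1 : ℓ ^ 2 * (TW * (1 + (1 + Real.log F) ^ e1)) *
        (Cm * ((2 * M) * (2 * N) : ℕ) * (1 + Real.log ((2 * M) * (2 * N) : ℕ)) ^ Cm) ≤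
      ℓ ^ 2 * (TW * (2 * (2 * ℓ) ^ e1)) * (Cm * (64 * X) * (2 * ℓ) ^ Cm) := by
    apply mul_le_mul
    · exact mul_le_mul_of_nonneg_left (mul_le_mul_of_nonneg_left p2 hTW) (sq_nonneg _)
    · apply mul_le_mul (mul_le_mul_of_nonneg_left hMN4 (Nat.cast_nonneg _)) p3 hl4 (by positivity)
    · positivity
    · positivity
  have P2 : (Cb * (1 + Real.log F) ^ Cb *
        (Real.sqrt ((2 * M : ℕ) * (2 * N : ℕ)) / D + Real.sqrt (2 * M : ℕ) + Real.sqrt (2 * N : ℕ) + F) *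
          (Real.sqrt (ℓ ^ 2 * ((2 * M : ℕ) * (1 + Real.log (2 * M : ℕ)) ^ 4)) *
            Real.sqrt (ℓ ^ 2 * ((2 * N : ℕ) * (1 + Real.log (2 * N : ℕ)) ^ 4)))) ≤
      Cb * (2 * ℓ) ^ Cb * (16 * Real.sqrt X * (1 / ℓ ^ B + y)) * (128 * ℓ ^ 6 * Real.sqrt X) := by
    apply mul_le_mul
    · apply mul_le_mul (mul_le_mul_of_nonneg_left p4 (Nat.cast_nonneg _)) p5 (by positivity) (by positivity)
    · exact p6
    · positivity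
    · positivity
  have P12 := mul_le_mul P1 P2 (by positivity) (by positivity)
  have P0 := mul_le_mul p1 P12 (by positivity) (by positivity)
  refine P0.trans (le_of_eq ?_)
  have e1' : (3 * ℓ) ^ (8 * K) = 3 ^ (8 * K) * ℓ ^ (8 * K) := mul_pow _ _ _
  have e2' : (2 * ℓ) ^ e1 = 2 ^ e1 * ℓ ^ e1 := mul_pow _ _ _
  have e3' : (2 * ℓ) ^ Cm = 2 ^ Cm * ℓ ^ Cm := mul_pow _ _ _
  have e4' : (2 * ℓ) ^ Cb = 2 ^ Cb * ℓ ^ Cb := mul_pow _ _ _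
  have e5' : ℓ ^ (8 * K + e1 + Cm + Cb + 8) = ℓ ^ (8 * K) * ℓ ^ e1 * ℓ ^ Cm * ℓ ^ Cb * ℓ ^ 8 := by
    rw [pow_add, pow_add, pow_add, pow_add]
  rw [e1', e2', e3', e4', e5']
  calc _ = (Real.sqrt X * Real.sqrt X) * X * ((3 ^ (8 * K) * TW * 2 ^ e1 * Cm * 2 ^ Cm * Cb * 2 ^ Cb * 262144) *
        (ℓ ^ (8 * K) * ℓ ^ e1 * ℓ ^ Cm * ℓ ^ Cb * ℓ ^ 8) * (1 / ℓ ^ B + y)) := by ring
    _ = _ := by rw [hsX]; ring

end Pool.Agent.Y826.ZL.Y61
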