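import Pool.Agent.Y826.ZL.Y61.T3

/-!
# Y826-TII: the second part (the mean terms), for fixed `u, v`
-/

open Finset

namespace Pool.Agent.Y826.ZL.Y61

open Pool.Agent.Y826.Z

/-- Cauchy-Schwarz over the fibres of `t` -/
lemma cauchy_fib {ι : Type*} [DecidableEq ι] (S : Finset ι) (t : ι → ℕ) (E : ι → ℝ) (hE : ∀ q, 0 ≤ E q)
    (Mb Bb : ℝ) (hB0 : 0 ≤ Bb)
    (hM : ∑ q ∈ S, ((S.filter (fun q' => t q' = t q)).card : ℝ) * E q ≤ Mb)
    (hB : ∀ σ : ℕ → ι, (∀ s ∈ S.image t, σ s ∈ S ∧ t (σ s) = s) → ∑ s ∈ S.image t, E (σ s) ≤ Bb) :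
    (∑ q ∈ S, E q) ^ 2 ≤ Mb * Bb := by
  rcases S.eq_empty_or_nonempty with rfl | hne
  · simp only [sum_empty, ne_eq, OfNat.ofNat_ne_zero, not_false_eq_true, zero_pow] at hM ⊢
    exact mul_nonneg hM hB0
  obtain ⟨q0, hq0⟩ := hne
  -- the maximal elements of the fibres
  have hex : ∀ s : ℕ, ∃ q : ι, s ∈ S.image t → (q ∈ S ∧ t q = s ∧ ∀ q' ∈ S, t q' = s → E q' ≤ E q) := by
    intro s
    by_cases hs : s ∈ S.image t
    · have hne' : (S.filter (fun q => t q = s)).Nonempty := by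
        obtain ⟨q, hq, hqs⟩ := mem_image.mp hs
        exact ⟨q, mem_filter.mpr ⟨hq, hqs⟩⟩
      obtain ⟨q, hq, hmax⟩ := exists_max_image _ E hne'
      refine ⟨q, fun _ => ⟨(mem_filter.mp hq).1, (mem_filter.mp hq).2, fun q' hq' hs' => ?_⟩⟩
      exact hmax q' (mem_filter.mpr ⟨hq', hs'⟩)
    · exact ⟨q0, fun h => absurd h hs⟩
  choose σ hσ using hex
  have hBσ := hB σ (fun s hs => ⟨(hσ s hs).1, (hσ s hs).2.1⟩)
  set w : ι → ℝ := fun q => ((S.filter (fun q' => t q' = t q)).card : ℝ) with hw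
  have hw1 : ∀ q ∈ S, 1 ≤ w q := by
    intro q hq
    have : 0 < (S.filter (fun q' => t q' = t q)).card := card_pos.mpr ⟨q, mem_filter.mpr ⟨hq, rfl⟩⟩
    show (1 : ℝ) ≤ ((S.filter (fun q' => t q' = t q)).card : ℝ)
    exact_mod_cast this
  have hdiv : ∑ q ∈ S, E q / w q ≤ Bb := by
    refine le_trans ?_ hBσ
    rw [← sum_fiberwise_of_maps_to (s := S) (t := S.image t) (g := t) (fun q hq => mem_image_of_mem t hq)]
    refine sum_le_sum fun s hs => ?_
    have h1 : ∀ q ∈ S.filter (fun q => t q = s), E q / w q ≤ E (σ s) / ((S.filter (fun q => t q = s)).card : ℝ) := by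
      intro q hq
      obtain ⟨hqS, hqs⟩ := mem_filter.mp hq
      have hwq : w q = ((S.filter (fun q => t q = s)).card : ℝ) := by
        show ((S.filter (fun q' => t q' = t q)).card : ℝ) = _
        rw [hqs]
      rw [hwq]
      exact div_le_div_of_nonneg_right ((hσ s hs).2.2 q hqS hqs) (Nat.cast_nonneg _)
    refine (sum_le_sum h1).trans ?_
    rw [sum_const, nsmul_eq_mul]
    have hc : (0 : ℝ) < ((S.filter (fun q => t q = s)).card : ℝ) := by
      have : 0 < (S.filter (fun q => t q = s)).card :=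
        card_pos.mpr ⟨σ s, mem_filter.mpr ⟨(hσ s hs).1, (hσ s hs).2.1⟩⟩
      exact_mod_cast this
    rw [mul_div_cancel₀ _ hc.ne']
  have hcs := Finset.sum_mul_sq_le_sq_mul_sq S (fun q => Real.sqrt (w q * E q)) (fun q => Real.sqrt (E q / w q))
  have e1 : ∑ q ∈ S, Real.sqrt (w q * E q) * Real.sqrt (E q / w q) = ∑ q ∈ S, E q := by
    refine sum_congr rfl fun q hq => ?_
    have hwq := hw1 q hq
    rw [← Real.sqrt_mul (mul_nonneg (by linarith) (hE q))]
    have : w q * E q * (E q / w q) = E q * E q := by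
      field_simp
    rw [this, Real.sqrt_mul_self (hE q)]
  have e2 : ∑ q ∈ S, Real.sqrt (w q * E q) ^ 2 = ∑ q ∈ S, w q * E q := by
    refine sum_congr rfl fun q hq => ?_
    exact Real.sq_sqrt (mul_nonneg (by linarith [hw1 q hq]) (hE q))
  have e3 : ∑ q ∈ S, Real.sqrt (E q / w q) ^ 2 = ∑ q ∈ S, E q / w q := by
    refine sum_congr rfl fun q hq => ?_
    exact Real.sq_sqrt (div_nonneg (hE q) (by linarith [hw1 q hq]))
  rw [e1, e2, e3] at hcs
  refine hcs.trans ?_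
  have h0 : 0 ≤ ∑ q ∈ S, w q * E q := sum_nonneg fun q hq => mul_nonneg (by linarith [hw1 q hq]) (hE q)
  have h1 : 0 ≤ ∑ q ∈ S, E q / w q := sum_nonneg fun q hq => div_nonneg (hE q) (by linarith [hw1 q hq])
  exact mul_le_mul hM hdiv h1 (h0.trans hM)

variable {K : ℕ}

lemma sm_mul_fer {g : Fin K → Fin 5} {D : ℕ} {q : Fin K → ℕ} (hq : ∀ j, Squarefree (q j)) (j : Fin K) :
    sm D q j * fer g D q j = fe g D q j := by
  unfold sm fer fe
  split_ifs
  · exact smp_mul_rop (hq j)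
  · exact mul_one _

/-- tuples of divisors -/
def dvs (h : Fin K → ℤ × ℤ) (x : ℕ) : Finset (Fin K → ℕ) :=
  Fintype.piFinset (fun j => ((h j).1 * (x : ℤ) + (h j).2).natAbs.divisors)

lemma mem_dvs {h : Fin K → ℤ × ℤ} {x : ℕ} (hx : ∀ j, (h j).1 * (x : ℤ) + (h j).2 ≠ 0) {e : Fin K → ℕ} (he : Cd h e x) :
    e ∈ dvs h x := by
  unfold dvs
  rw [Fintype.mem_piFinset]
  intro j
  rw [Nat.mem_divisors]
  refine ⟨?_, Int.natAbs_ne_zero.mpr (hx j)⟩
  have := he j
  exact Int.natCast_dvd.mp this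

lemma card_dvs (h : Fin K → ℤ × ℤ) (x : ℕ) : ((dvs h x).card : ℝ) = ∏ j, tau ((h j).1 * (x : ℤ) + (h j).2).natAbs := by
  unfold dvs tau
  rw [Fintype.card_piFinset]
  push_cast
  rfl

/-- data of the fibre: fixed rough parts `u, v` -/
structure Fib (W b D F : ℕ) (g : Fin K → Fin 5) (S : Finset (Fin K → ℕ)) (u v : Fin K → ℕ) : Prop where
  sf : ∀ q ∈ S, Squarefree (W * Pr q)
  hu : ∀ q ∈ S, fu g D q = u
  hv : ∀ q ∈ S, fv g D q = v
  hF : ∀ q ∈ S, W * Pr (fe g D q) ≤ F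

lemma Fib.sfj {W b D F : ℕ} {g : Fin K → Fin 5} {S : Finset (Fin K → ℕ)} {u v : Fin K → ℕ}
    (H : Fib W b D F g S u v) {q : Fin K → ℕ} (hq : q ∈ S) (j : Fin K) : Squarefree (q j) :=
  sqf_of_Pr (Squarefree.of_mul_right (H.sf q hq)) j

lemma Fib.inj {W b D F : ℕ} {g : Fin K → Fin 5} {S : Finset (Fin K → ℕ)} {u v : Fin K → ℕ}
    (H : Fib W b D F g S u v) {q q' : Fin K → ℕ} (hq : q ∈ S) (hq' : q' ∈ S)
    (he : fe g D q = fe g D q') : q = q' := by
  funext j
  rw [← fe_mul (g := g) (D := D) (H.sfj hq) j, ← fe_mul (g := g) (D := D) (H.sfj hq') j, he, H.hu q hq,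
    H.hv q hq, H.hu q' hq', H.hv q' hq']

lemma Fib.sft {W b D F : ℕ} {g : Fin K → Fin 5} {S : Finset (Fin K → ℕ)} {u v : Fin K → ℕ}
    (H : Fib W b D F g S u v) {q : Fin K → ℕ} (hq : q ∈ S) : Squarefree (W * Pr (fe g D q)) := by
  apply (H.sf q hq).squarefree_of_dvd
  apply mul_dvd_mul_left
  apply Pr_dvd_Pr
  intro j
  rw [← fe_mul (g := g) (D := D) (H.sfj hq) j]
  exact dvd_mul_right _ _

/-- the number of `q` with the same modulus -/
lemma Fib.card_le {W b D F : ℕ} {g : Fin K → Fin 5} {S : Finset (Fin K → ℕ)} {u v : Fin K → ℕ}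
    (H : Fib W b D F g S u v) {q : Fin K → ℕ} (hq : q ∈ S) :
    ((S.filter (fun q' => W * Pr (fe g D q') = W * Pr (fe g D q))).card : ℝ) ≤
      tau (W * Pr (fe g D q)) ^ K := by
  have ht0 : W * Pr (fe g D q) ≠ 0 := (H.sft hq).ne_zero
  have h1 : (S.filter (fun q' => W * Pr (fe g D q') = W * Pr (fe g D q))).card ≤
      (Fintype.piFinset (fun _ : Fin K => (W * Pr (fe g D q)).divisors)).card := by
    apply card_le_card_of_injOn (fun q' => fe g D q')
    · intro q' hq'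
      have hq'2 := (mem_filter.mp hq').2
      show fe g D q' ∈ Fintype.piFinset _
      rw [Fintype.mem_piFinset]
      intro j
      rw [Nat.mem_divisors]
      refine ⟨?_, ht0⟩
      rw [← hq'2]
      exact (dvd_Pr _ j).trans (dvd_mul_left _ _)
    · intro q1 h1 q2 h2 he
      exact H.inj (mem_filter.mp h1).1 (mem_filter.mp h2).1 he
  rw [Fintype.card_piFinset, prod_const, card_univ, Fintype.card_fin] at h1
  unfold tau
  exact_mod_cast h1

/-- the direct terms -/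
lemma Fib.massA {W b D F : ℕ} {g : Fin K → Fin 5} {S : Finset (Fin K → ℕ)} {u v : Fin K → ℕ}
    (H : Fib W b D F g S u v) (h : Fin K → ℤ × ℤ) {x : ℕ} (hx : ∀ j, (h j).1 * (x : ℤ) + (h j).2 ≠ 0) :
    ∑ q ∈ S, tau (W * Pr (fe g D q)) ^ K * ind (Cd h (fe g D q) x) ≤
      tau W ^ K * ∏ j, tau ((h j).1 * (x : ℤ) + (h j).2).natAbs ^ (K + 1) := by
  classical
  have hP0 : 0 ≤ ∏ j, tau ((h j).1 * (x : ℤ) + (h j).2).natAbs := prod_nonneg fun j _ => tau_nonneg _
  have h1 : ∑ q ∈ S, tau (W * Pr (fe g D q)) ^ K * ind (Cd h (fe g D q) x) =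
      ∑ q ∈ S.filter (fun q => Cd h (fe g D q) x), tau (W * Pr (fe g D q)) ^ K := by
    rw [sum_filter]
    refine sum_congr rfl fun q _ => ?_
    unfold ind
    split_ifs <;> simp
  rw [h1]
  have h2 : ∀ q ∈ S.filter (fun q => Cd h (fe g D q) x), tau (W * Pr (fe g D q)) ^ K ≤
      tau W ^ K * (∏ j, tau ((h j).1 * (x : ℤ) + (h j).2).natAbs) ^ K := by
    intro q hq
    obtain ⟨hqS, hqx⟩ := mem_filter.mp hq
    rw [← mul_pow]
    apply pow_le_pow_left₀ (tau_nonneg _)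
    refine (tau_mul_le _ _).trans (mul_le_mul_of_nonneg_left ?_ (tau_nonneg _))
    refine (tau_prod_le univ (fe g D q)).trans ?_
    refine prod_le_prod (fun j _ => tau_nonneg _) fun j _ => ?_
    exact tau_le_of_dvd (Int.natCast_dvd.mp (hqx j)) (Int.natAbs_ne_zero.mpr (hx j))
  refine (sum_le_sum h2).trans ?_
  rw [sum_const, nsmul_eq_mul]
  have h3 : ((S.filter (fun q => Cd h (fe g D q) x)).card : ℝ) ≤ ∏ j, tau ((h j).1 * (x : ℤ) + (h j).2).natAbs := by
    rw [← card_dvs]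
    have : (S.filter (fun q => Cd h (fe g D q) x)).card ≤ (dvs h x).card := by
      apply card_le_card_of_injOn (fun q => fe g D q)
      · intro q hq
        exact mem_dvs hx (mem_filter.mp hq).2
      · intro q1 h1 q2 h2 he
        exact H.inj (mem_filter.mp h1).1 (mem_filter.mp h2).1 he
    exact_mod_cast this
  calc _ ≤ (∏ j, tau ((h j).1 * (x : ℤ) + (h j).2).natAbs) * (tau W ^ K * (∏ j, tau ((h j).1 * (x : ℤ) + (h j).2).natAbs) ^ K) :=
        mul_le_mul_of_nonneg_right h3 (mul_nonneg (pow_nonneg (tau_nonneg _) _) (pow_nonneg hP0 _))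
    _ = _ := by rw [prod_pow, pow_succ]; ring

/-- the mean terms -/
lemma Fib.massB {W b D F : ℕ} {g : Fin K → Fin 5} {S : Finset (Fin K → ℕ)} {u v : Fin K → ℕ}
    (H : Fib W b D F g S u v) (h : Fin K → ℤ × ℤ) {x : ℕ} (hx : ∀ j, (h j).1 * (x : ℤ) + (h j).2 ≠ 0) (hW : 0 < W) :
    ∑ q ∈ S, tau (W * Pr (fe g D q)) ^ K * ((1 / (Nat.totient (Pr (fer g D q)) : ℝ)) * ind (Cd h (sm D q) x)) ≤
      tau W ^ K * (∏ j, tau ((h j).1 * (x : ℤ) + (h j).2).natAbs ^ (K + 1)) * (1 + Real.log F) ^ (2 ^ (K + 1) * K) := by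
  classical
  have hP0 : 0 ≤ ∏ j, tau ((h j).1 * (x : ℤ) + (h j).2).natAbs := prod_nonneg fun j _ => tau_nonneg _
  set cc : ℝ := tau W ^ K * (∏ j, tau ((h j).1 * (x : ℤ) + (h j).2).natAbs) ^ K with hcc
  have hcc0 : 0 ≤ cc := mul_nonneg (pow_nonneg (tau_nonneg _) _) (pow_nonneg hP0 _)
  have h1 : ∑ q ∈ S, tau (W * Pr (fe g D q)) ^ K * ((1 / (Nat.totient (Pr (fer g D q)) : ℝ)) * ind (Cd h (sm D q) x)) =
      ∑ q ∈ S.filter (fun q => Cd h (sm D q) x), tau (W * Pr (fe g D q)) ^ K * (1 / (Nat.totient (Pr (fer g D q)) : ℝ)) := by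
    rw [sum_filter]
    refine sum_congr rfl fun q _ => ?_
    unfold ind
    split_ifs <;> simp
  rw [h1]
  have hferpos : ∀ q ∈ S, ∀ j, 0 < fer g D q j := by
    intro q _ j
    unfold fer
    split_ifs
    · exact rop_pos _ _
    · exact one_pos
  have h2 : ∀ q ∈ S.filter (fun q => Cd h (sm D q) x),
      tau (W * Pr (fe g D q)) ^ K * (1 / (Nat.totient (Pr (fer g D q)) : ℝ)) ≤
      cc * ∏ j, (tau (fer g D q j) ^ (K + 1) / (fer g D q j : ℝ)) := by
    intro q hq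
    obtain ⟨hqS, hqx⟩ := mem_filter.mp hq
    have h3 : tau (W * Pr (fe g D q)) ≤ tau W * ((∏ j, tau ((h j).1 * (x : ℤ) + (h j).2).natAbs) * ∏ j, tau (fer g D q j)) := by
      refine (tau_mul_le _ _).trans (mul_le_mul_of_nonneg_left ?_ (tau_nonneg _))
      refine (tau_prod_le univ (fe g D q)).trans ?_
      rw [← prod_mul_distrib]
      refine prod_le_prod (fun j _ => tau_nonneg _) fun j _ => ?_
      rw [← sm_mul_fer (H.sfj hqS) j]
      refine (tau_mul_le _ _).trans (mul_le_mul_of_nonneg_right ?_ (tau_nonneg _))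
      exact tau_le_of_dvd (Int.natCast_dvd.mp (hqx j)) (Int.natAbs_ne_zero.mpr (hx j))
    have h4 : 1 / (Nat.totient (Pr (fer g D q)) : ℝ) ≤ (∏ j, tau (fer g D q j)) / (Pr (fer g D q) : ℝ) := by
      refine (one_div_totient_le _ (Pr_pos (hferpos q hqS))).trans ?_
      exact div_le_div_of_nonneg_right (tau_prod_le univ _) (Nat.cast_nonneg _)
    have hfe0 : 0 ≤ ∏ j, tau (fer g D q j) := prod_nonneg fun j _ => tau_nonneg _
    calc tau (W * Pr (fe g D q)) ^ K * (1 / (Nat.totient (Pr (fer g D q)) : ℝ))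
        ≤ (tau W * ((∏ j, tau ((h j).1 * (x : ℤ) + (h j).2).natAbs) * ∏ j, tau (fer g D q j))) ^ K *
          ((∏ j, tau (fer g D q j)) / (Pr (fer g D q) : ℝ)) := by
          apply mul_le_mul (pow_le_pow_left₀ (tau_nonneg _) h3 K) h4 (by positivity)
          exact pow_nonneg (mul_nonneg (tau_nonneg _) (mul_nonneg hP0 hfe0)) _
      _ = cc * ∏ j, (tau (fer g D q j) ^ (K + 1) / (fer g D q j : ℝ)) := by
          rw [prod_div_distrib, prod_pow, hcc]
          unfold Pr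
          push_cast
          rw [mul_pow, mul_pow, pow_succ (∏ j, tau (fer g D q j)) K]
          ring
  refine (sum_le_sum h2).trans ?_
  rw [← mul_sum]
  -- inject into pairs
  have h5 : ∑ q ∈ S.filter (fun q => Cd h (sm D q) x), ∏ j, (tau (fer g D q j) ^ (K + 1) / (fer g D q j : ℝ)) ≤
      ∑ p ∈ dvs h x ×ˢ Fintype.piFinset (fun _ : Fin K => Icc 1 F), ∏ j, (tau (p.2 j) ^ (K + 1) / (p.2 j : ℝ)) := by
    have hinj : Set.InjOn (fun q => (sm D q, fer g D q)) (S.filter (fun q => Cd h (sm D q) x) : Set (Fin K → ℕ)) := by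
      intro q1 hq1 q2 hq2 he
      have hq1' := (mem_filter.mp hq1).1
      have hq2' := (mem_filter.mp hq2).1
      simp only [Prod.mk.injEq] at he
      apply H.inj hq1' hq2'
      funext j
      rw [← sm_mul_fer (H.sfj hq1') j, ← sm_mul_fer (H.sfj hq2') j, he.1, he.2]
    have h6 := sum_image (s := S.filter (fun q => Cd h (sm D q) x)) (g := fun q => (sm D q, fer g D q))
      (f := fun p : (Fin K → ℕ) × (Fin K → ℕ) => ∏ j, (tau (p.2 j) ^ (K + 1) / (p.2 j : ℝ))) hinj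
    simp only at h6
    rw [← h6]
    apply sum_le_sum_of_subset_of_nonneg
    · intro p hp
      obtain ⟨q, hq, rfl⟩ := mem_image.mp hp
      obtain ⟨hqS, hqx⟩ := mem_filter.mp hq
      rw [mem_product]
      refine ⟨mem_dvs hx hqx, ?_⟩
      rw [Fintype.mem_piFinset]
      intro j
      rw [mem_Icc]
      refine ⟨hferpos q hqS j, ?_⟩
      refine le_trans ?_ (H.hF q hqS)
      apply Nat.le_of_dvd (Nat.pos_of_ne_zero (H.sft hqS).ne_zero)
      have h7 : fer g D q j ∣ fe g D q j := ⟨sm D q j, by rw [mul_comm, sm_mul_fer (H.sfj hqS)]⟩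
      exact h7.trans ((dvd_Pr _ j).trans (dvd_mul_left _ _))
    · intro p _ _
      exact prod_nonneg fun j _ => div_nonneg (pow_nonneg (tau_nonneg _) _) (Nat.cast_nonneg _)
  have h8 : ∑ p ∈ dvs h x ×ˢ Fintype.piFinset (fun _ : Fin K => Icc 1 F), ∏ j, (tau (p.2 j) ^ (K + 1) / (p.2 j : ℝ)) ≤
      (∏ j, tau ((h j).1 * (x : ℤ) + (h j).2).natAbs) * (1 + Real.log F) ^ (2 ^ (K + 1) * K) := by
    rw [sum_product]
    simp only [sum_const, nsmul_eq_mul]
    rw [card_dvs]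
    apply mul_le_mul_of_nonneg_left _ hP0
    have h9 := Finset.prod_univ_sum (fun _ : Fin K => Icc 1 F) (fun (_ : Fin K) (y : ℕ) => tau y ^ (K + 1) / (y : ℝ))
    rw [← h9, prod_const, card_univ, Fintype.card_fin, pow_mul]
    exact pow_le_pow_left₀ (sum_nonneg fun y _ => div_nonneg (pow_nonneg (tau_nonneg _) _) (Nat.cast_nonneg _))
      (tau_moment_div (K + 1) F) K
  calc _ ≤ cc * ((∏ j, tau ((h j).1 * (x : ℤ) + (h j).2).natAbs) * (1 + Real.log F) ^ (2 ^ (K + 1) * K)) :=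
        mul_le_mul_of_nonneg_left (h5.trans h8) hcc0
    _ = _ := by rw [hcc, prod_pow, pow_succ]; ring

end Pool.Agent.Y826.ZL.Y61
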