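import Pool.Agent.Y826.ZL.Y61.T4

/-!
# Y826-TII: the second part for fixed `u, v`: the bound
-/

open Finset

namespace Pool.Agent.Y826.ZL.Y61

open Pool.Agent.Y826.Z

variable {K : ℕ}

lemma tau_pow_mono {n a b : ℕ} (ha : 1 ≤ a) (hab : a ≤ b) : tau n ^ a ≤ tau n ^ b := by
  rcases Nat.eq_zero_or_pos n with rfl | hn
  · rw [tau_zero, zero_pow (by omega), zero_pow (by omega)]
  · exact pow_le_pow_right₀ (one_le_tau hn.ne') hab

lemma moment' (h : Fin K → ℤ × ℤ) (ha : ∀ j, (h j).1 ≠ 0) : ∃ C : ℕ, ∀ Y : ℕ, 1 ≤ Y →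
    ∑ x ∈ Icc 1 Y, tau x ^ 3 * ∏ j, tau ((h j).1 * (x : ℤ) + (h j).2).natAbs ^ (K + 1) ≤
      C * Y * (1 + Real.log Y) ^ C := by
  obtain ⟨C, hC⟩ := moment h ha (K + 3) (by omega)
  refine ⟨C, fun Y hY => le_trans (sum_le_sum fun x _ => ?_) (hC Y hY)⟩
  apply mul_le_mul (tau_pow_mono (by omega) (by omega)) _
    (prod_nonneg fun j _ => pow_nonneg (tau_nonneg _) _) (pow_nonneg (tau_nonneg _) _)
  exact prod_le_prod (fun j _ => pow_nonneg (tau_nonneg _) _) fun j _ => tau_pow_mono (by omega) (by omega)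

/-- restricted coefficients -/
def rc (M P : ℕ) (α : ℕ → ℝ) (m : ℕ) : ℝ := if M < m ∧ m.Coprime P then α m else 0

lemma rc_abs_le {M P : ℕ} {α : ℕ → ℝ} {L : ℝ} (hL : 0 ≤ L)
    (hα : ∀ m ∈ Ioc M (2 * M), |α m| ≤ tau m * L) {m : ℕ} (hm : m ∈ Icc 1 (2 * M)) :
    |rc M P α m| ≤ tau m * L := by
  unfold rc
  split_ifs with hc
  · rw [mem_Icc] at hm
    exact hα m (mem_Ioc.mpr ⟨hc.1, hm.2⟩)
  · rw [abs_zero]; exact mul_nonneg (tau_nonneg _) hL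

lemma rc_sq_sum {M P : ℕ} {α : ℕ → ℝ} {L : ℝ} (hL : 0 ≤ L)
    (hα : ∀ m ∈ Ioc M (2 * M), |α m| ≤ tau m * L) :
    ∑ m ∈ Icc 1 (2 * M), rc M P α m ^ 2 ≤ L ^ 2 * ((2 * M : ℕ) * (1 + Real.log (2 * M : ℕ)) ^ 4) := by
  have h1 : ∀ m ∈ Icc 1 (2 * M), rc M P α m ^ 2 ≤ L ^ 2 * tau m ^ 2 := by
    intro m hm
    have := rc_abs_le (P := P) hL hα hm
    rw [← sq_abs, ← mul_pow, mul_comm L]
    exact pow_le_pow_left₀ (abs_nonneg _) this 2
  refine (sum_le_sum h1).trans ?_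
  rw [← mul_sum]
  apply mul_le_mul_of_nonneg_left _ (sq_nonneg _)
  simpa using tau_moment 2 (2 * M)

/-- the bracket sum -/
noncomputable def Es (M N D : ℕ) (α β : ℕ → ℝ) (P t x0 : ℕ) : ℝ :=
  ∑ m ∈ Icc 1 (2 * M), ∑ n ∈ Icc 1 (2 * N), rc M P α m * rc N P β n * br D t x0 (m * n)

/-- the choice of the classes -/
def GoodX (h : Fin K → ℤ × ℤ) (W b D : ℕ) (g : Fin K → Fin 5) (S : Finset (Fin K → ℕ)) (x0 : (Fin K → ℕ) → ℕ) : Prop :=
  ∀ q ∈ S, (x0 q).Coprime (W * Pr (fe g D q)) ∧ ∀ d : Fin K → ℕ, (∀ j, d j ∣ fe g D q j) → ∀ x : ℕ,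
      (x ≡ x0 q [MOD (W * Pr d)] ↔ x ≡ b [MOD W] ∧ Cd h d x)

lemma sm_dvd_fe {g : Fin K → Fin 5} {D : ℕ} {q : Fin K → ℕ} (hqj : ∀ j, Squarefree (q j)) (j : Fin K) :
    sm D q j ∣ fe g D q j := ⟨_, (sm_mul_fer hqj j).symm⟩

/-- pointwise bound -/
lemma Fib.pt {h : Fin K → ℤ × ℤ} {W b D F : ℕ} {g : Fin K → Fin 5} {S : Finset (Fin K → ℕ)} {u v : Fin K → ℕ}
    (H : Fib W b D F g S u v) (hW : 0 < W) (hD : ∀ p : ℕ, p.Prime → p ∣ W → p ≤ D)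
    {x0 : (Fin K → ℕ) → ℕ} (hx0 : GoodX h W b D g S x0) {x : ℕ} (hx : ∀ j, (h j).1 * (x : ℤ) + (h j).2 ≠ 0) :
    ∑ q ∈ S, ((S.filter (fun q' => W * Pr (fe g D q') = W * Pr (fe g D q))).card : ℝ) *
        |br D (W * Pr (fe g D q)) (x0 q) x| ≤
      tau W ^ K * (1 + (1 + Real.log F) ^ (2 ^ (K + 1) * K)) *
        ∏ j, tau ((h j).1 * (x : ℤ) + (h j).2).natAbs ^ (K + 1) := by
  have h1 : ∀ q ∈ S, ((S.filter (fun q' => W * Pr (fe g D q') = W * Pr (fe g D q))).card : ℝ) *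
        |br D (W * Pr (fe g D q)) (x0 q) x| ≤
      tau (W * Pr (fe g D q)) ^ K * ind (Cd h (fe g D q) x) +
      tau (W * Pr (fe g D q)) ^ K * ((1 / (Nat.totient (Pr (fer g D q)) : ℝ)) * ind (Cd h (sm D q) x)) := by
    intro q hq
    rw [← mul_add]
    apply mul_le_mul (H.card_le hq) _ (abs_nonneg _) (pow_nonneg (tau_nonneg _) _)
    unfold br
    refine (abs_sub _ _).trans ?_
    have hq' := H.sf q hq
    rw [smp_t hq' hD, rop_t hq' hD]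
    have e1 : ind (x ≡ x0 q [MOD W * Pr (fe g D q)]) ≤ ind (Cd h (fe g D q) x) := by
      rw [ind_congr ((hx0 q hq).2 _ (fun j => dvd_rfl) x), ind_and]
      calc _ ≤ 1 * ind (Cd h (fe g D q) x) := mul_le_mul_of_nonneg_right (ind_le_one _) (ind_nonneg _)
        _ = _ := one_mul _
    have e2 : ind (x ≡ x0 q [MOD W * Pr (sm D q)] ∧ x.Coprime (Pr (fer g D q))) ≤ ind (Cd h (sm D q) x) := by
      rw [ind_and, ind_congr ((hx0 q hq).2 _ (sm_dvd_fe (H.sfj hq)) x), ind_and]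
      calc ind (x ≡ b [MOD W]) * ind (Cd h (sm D q) x) * ind (x.Coprime (Pr (fer g D q)))
          ≤ (1 * ind (Cd h (sm D q) x)) * 1 := by
            apply mul_le_mul _ (ind_le_one _) (ind_nonneg _)
            · rw [one_mul]; exact ind_nonneg _
            · exact mul_le_mul_of_nonneg_right (ind_le_one _) (ind_nonneg _)
        _ = _ := by ring
    rw [abs_of_nonneg (ind_nonneg _), abs_of_nonneg (mul_nonneg (by positivity) (ind_nonneg _))]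
    exact add_le_add e1 (mul_le_mul_of_nonneg_left e2 (by positivity))
  refine (sum_le_sum h1).trans ?_
  rw [sum_add_distrib]
  refine (add_le_add (H.massA h hx) (H.massB h hx hW)).trans (le_of_eq ?_)
  ring

/-- the bound of the masses -/
lemma Fib.mass {h : Fin K → ℤ × ℤ} {W b D F : ℕ} {g : Fin K → Fin 5} {S : Finset (Fin K → ℕ)} {u v : Fin K → ℕ}
    (H : Fib W b D F g S u v) (hW : 0 < W) (hD : ∀ p : ℕ, p.Prime → p ∣ W → p ≤ D)
    {x0 : (Fin K → ℕ) → ℕ} (hx0 : GoodX h W b D g S x0) {M N P : ℕ} (hM : 1 ≤ M) (hN : 1 ≤ N)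
    (hnz : ∀ x : ℕ, M * N < x → ∀ j, (h j).1 * (x : ℤ) + (h j).2 ≠ 0) {α β : ℕ → ℝ} {L : ℝ} (hL : 0 ≤ L)
    (hα : ∀ m ∈ Ioc M (2 * M), |α m| ≤ tau m * L) (hβ : ∀ n ∈ Ioc N (2 * N), |β n| ≤ tau n * L)
    {Cm : ℕ} (hCm : ∀ Y : ℕ, 1 ≤ Y →
      ∑ x ∈ Icc 1 Y, tau x ^ 3 * ∏ j, tau ((h j).1 * (x : ℤ) + (h j).2).natAbs ^ (K + 1) ≤ Cm * Y * (1 + Real.log Y) ^ Cm) :
    ∑ q ∈ S, ((S.filter (fun q' => W * Pr (fe g D q') = W * Pr (fe g D q))).card : ℝ) *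
        |Es M N D α β P (W * Pr (fe g D q)) (x0 q)| ≤
      L ^ 2 * (tau W ^ K * (1 + (1 + Real.log F) ^ (2 ^ (K + 1) * K))) *
        (Cm * ((2 * M) * (2 * N) : ℕ) * (1 + Real.log ((2 * M) * (2 * N) : ℕ)) ^ Cm) := by
  set Gc : ℝ := tau W ^ K * (1 + (1 + Real.log F) ^ (2 ^ (K + 1) * K)) with hGc
  have hGc0 : 0 ≤ Gc := by
    apply mul_nonneg (pow_nonneg (tau_nonneg _) _)
    have := pow_nonneg (one_add_log_nonneg F) (2 ^ (K + 1) * K)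
    linarith
  set w : (Fin K → ℕ) → ℝ := fun q =>
    ((S.filter (fun q' => W * Pr (fe g D q') = W * Pr (fe g D q))).card : ℝ) with hw
  have hw0 : ∀ q, 0 ≤ w q := fun q => Nat.cast_nonneg _
  set G : ℕ → ℝ := fun x => ∏ j, tau ((h j).1 * (x : ℤ) + (h j).2).natAbs ^ (K + 1) with hG
  have hG0 : ∀ x, 0 ≤ G x := fun x => prod_nonneg fun j _ => pow_nonneg (tau_nonneg _) _
  have h1 : ∀ q ∈ S, w q * |Es M N D α β P (W * Pr (fe g D q)) (x0 q)| ≤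
      ∑ m ∈ Icc 1 (2 * M), ∑ n ∈ Icc 1 (2 * N), |rc M P α m| * |rc N P β n| *
        (w q * |br D (W * Pr (fe g D q)) (x0 q) (m * n)|) := by
    intro q _
    have h2 : |Es M N D α β P (W * Pr (fe g D q)) (x0 q)| ≤
        ∑ m ∈ Icc 1 (2 * M), ∑ n ∈ Icc 1 (2 * N), |rc M P α m * rc N P β n * br D (W * Pr (fe g D q)) (x0 q) (m * n)| := by
      unfold Es
      refine (abs_sum_le_sum_abs _ _).trans (sum_le_sum fun m _ => abs_sum_le_sum_abs _ _)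
    refine (mul_le_mul_of_nonneg_left h2 (hw0 q)).trans (le_of_eq ?_)
    rw [mul_sum]
    refine sum_congr rfl fun m _ => ?_
    rw [mul_sum]
    refine sum_congr rfl fun n _ => ?_
    rw [abs_mul, abs_mul]
    ring
  refine (sum_le_sum h1).trans ?_
  rw [sum_comm]
  have h3 : ∀ m ∈ Icc 1 (2 * M), ∑ q ∈ S, ∑ n ∈ Icc 1 (2 * N), |rc M P α m| * |rc N P β n| *
        (w q * |br D (W * Pr (fe g D q)) (x0 q) (m * n)|) ≤
      ∑ n ∈ Icc 1 (2 * N), L ^ 2 * Gc * (tau m * tau n * G (m * n)) := by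
    intro m hm
    rw [sum_comm]
    refine sum_le_sum fun n hn => ?_
    rw [← mul_sum]
    by_cases hmn : M < m ∧ N < n
    · have hx : M * N < m * n := Nat.mul_lt_mul'' hmn.1 hmn.2
      have h4 := H.pt hW hD hx0 (hnz (m * n) hx)
      have hpt : ∑ q ∈ S, w q * |br D (W * Pr (fe g D q)) (x0 q) (m * n)| ≤ Gc * G (m * n) := h4
      have ha := rc_abs_le (P := P) hL hα hm
      have hb := rc_abs_le (P := P) hL hβ hn
      have hs0 : 0 ≤ ∑ q ∈ S, w q * |br D (W * Pr (fe g D q)) (x0 q) (m * n)| :=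
        sum_nonneg fun q _ => mul_nonneg (hw0 q) (abs_nonneg _)
      calc |rc M P α m| * |rc N P β n| * ∑ q ∈ S, w q * |br D (W * Pr (fe g D q)) (x0 q) (m * n)|
          ≤ (tau m * L) * (tau n * L) * (Gc * G (m * n)) := by
            apply mul_le_mul _ hpt hs0
            · exact mul_nonneg (mul_nonneg (tau_nonneg _) hL) (mul_nonneg (tau_nonneg _) hL)
            · exact mul_le_mul ha hb (abs_nonneg _) (mul_nonneg (tau_nonneg _) hL)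
        _ = _ := by ring
    · have h0 : |rc M P α m| * |rc N P β n| = 0 := by
        rw [not_and_or] at hmn
        rcases hmn with hmn | hmn
        · have : rc M P α m = 0 := by unfold rc; rw [if_neg]; tauto
          rw [this, abs_zero, zero_mul]
        · have : rc N P β n = 0 := by unfold rc; rw [if_neg]; tauto
          rw [this, abs_zero, mul_zero]
      rw [h0, zero_mul]
      exact mul_nonneg (mul_nonneg (sq_nonneg _) hGc0)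
        (mul_nonneg (mul_nonneg (tau_nonneg _) (tau_nonneg _)) (hG0 _))
  refine (sum_le_sum h3).trans ?_
  have h5 : ∑ m ∈ Icc 1 (2 * M), ∑ n ∈ Icc 1 (2 * N), L ^ 2 * Gc * (tau m * tau n * G (m * n)) =
      L ^ 2 * Gc * ∑ m ∈ Icc 1 (2 * M), ∑ n ∈ Icc 1 (2 * N), tau m * tau n * G (m * n) := by
    rw [mul_sum]
    refine sum_congr rfl fun m _ => ?_
    rw [mul_sum]
  rw [h5]
  apply mul_le_mul_of_nonneg_left _ (mul_nonneg (sq_nonneg _) hGc0)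
  refine (conv_le (2 * M) (2 * N) G hG0).trans ?_
  exact hCm _ (Nat.mul_pos (by omega) (by omega))

/-- the bound for fixed `u, v` -/
lemma Fib.bound {h : Fin K → ℤ × ℤ} {W b D F : ℕ} {g : Fin K → Fin 5} {S : Finset (Fin K → ℕ)} {u v : Fin K → ℕ}
    (H : Fib W b D F g S u v) (hW : 0 < W) (hD : ∀ p : ℕ, p.Prime → p ∣ W → p ≤ D) (hD1 : 1 ≤ D) (hF2 : 2 ≤ F)
    {x0 : (Fin K → ℕ) → ℕ} (hx0 : GoodX h W b D g S x0) {M N P : ℕ} (hM : 1 ≤ M) (hN : 1 ≤ N)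
    (hnz : ∀ x : ℕ, M * N < x → ∀ j, (h j).1 * (x : ℤ) + (h j).2 ≠ 0) {α β : ℕ → ℝ} {L : ℝ} (hL : 0 ≤ L)
    (hα : ∀ m ∈ Ioc M (2 * M), |α m| ≤ tau m * L) (hβ : ∀ n ∈ Ioc N (2 * N), |β n| ≤ tau n * L)
    {Cm : ℕ} (hCm : ∀ Y : ℕ, 1 ≤ Y →
      ∑ x ∈ Icc 1 Y, tau x ^ 3 * ∏ j, tau ((h j).1 * (x : ℤ) + (h j).2).natAbs ^ (K + 1) ≤ Cm * Y * (1 + Real.log Y) ^ Cm)
    {Cb : ℕ} (hCb : ∀ (X Y F D : ℕ) (α β : ℕ → ℝ) (T : Finset ℕ) (bt : ℕ → ℕ), 1 ≤ D → 2 ≤ F →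
      (∀ t ∈ T, Squarefree t ∧ t ≤ F ∧ (bt t).Coprime t) →
      ∑ t ∈ T, |∑ m ∈ Icc 1 X, ∑ n ∈ Icc 1 Y, α m * β n *
          (ind (m * n ≡ bt t [MOD t]) -
            (1 / (Nat.totient (rop D t) : ℝ)) * ind (m * n ≡ bt t [MOD (smp D t)] ∧ (m * n).Coprime (rop D t)))| ≤
        Cb * (1 + Real.log F) ^ Cb * (Real.sqrt (X * Y) / D + Real.sqrt X + Real.sqrt Y + F) *
          (Real.sqrt (∑ m ∈ Icc 1 X, α m ^ 2) * Real.sqrt (∑ n ∈ Icc 1 Y, β n ^ 2))) :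
    (∑ q ∈ S, |Es M N D α β P (W * Pr (fe g D q)) (x0 q)|) ^ 2 ≤
      (L ^ 2 * (tau W ^ K * (1 + (1 + Real.log F) ^ (2 ^ (K + 1) * K))) *
        (Cm * ((2 * M) * (2 * N) : ℕ) * (1 + Real.log ((2 * M) * (2 * N) : ℕ)) ^ Cm)) *
      (Cb * (1 + Real.log F) ^ Cb *
        (Real.sqrt ((2 * M : ℕ) * (2 * N : ℕ)) / D + Real.sqrt (2 * M : ℕ) + Real.sqrt (2 * N : ℕ) + F) *
          (Real.sqrt (L ^ 2 * ((2 * M : ℕ) * (1 + Real.log (2 * M : ℕ)) ^ 4)) *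
            Real.sqrt (L ^ 2 * ((2 * N : ℕ) * (1 + Real.log (2 * N : ℕ)) ^ 4)))) := by
  classical
  apply cauchy_fib S (fun q => W * Pr (fe g D q)) _ (fun q => abs_nonneg _)
  · have := pow_nonneg (one_add_log_nonneg F) Cb
    positivity
  · exact H.mass hW hD hx0 hM hN hnz hL hα hβ hCm
  · intro σ hσ
    have h1 := hCb (2 * M) (2 * N) F D (rc M P α) (rc N P β) (S.image (fun q => W * Pr (fe g D q)))
      (fun t => x0 (σ t)) hD1 hF2 (by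
        intro t ht
        obtain ⟨h2, h3⟩ := hσ t ht
        refine ⟨?_, ?_, ?_⟩
        · rw [← h3]; exact H.sft h2
        · rw [← h3]; exact H.hF _ h2
        · have := (hx0 _ h2).1
          rwa [h3] at this)
    have h4 : ∑ s ∈ S.image (fun q => W * Pr (fe g D q)), |Es M N D α β P (W * Pr (fe g D (σ s))) (x0 (σ s))| =
        ∑ t ∈ S.image (fun q => W * Pr (fe g D q)), |∑ m ∈ Icc 1 (2 * M), ∑ n ∈ Icc 1 (2 * N), rc M P α m * rc N P β n *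
          (ind (m * n ≡ x0 (σ t) [MOD t]) -
            (1 / (Nat.totient (rop D t) : ℝ)) * ind (m * n ≡ x0 (σ t) [MOD (smp D t)] ∧ (m * n).Coprime (rop D t)))| := by
      refine sum_congr rfl fun t ht => ?_
      have h3 := (hσ t ht).2
      rw [h3]
      rfl
    rw [h4]
    refine h1.trans ?_
    have hpos : 0 ≤ (Cb : ℝ) * (1 + Real.log F) ^ Cb *
        (Real.sqrt ((2 * M : ℕ) * (2 * N : ℕ)) / D + Real.sqrt (2 * M : ℕ) + Real.sqrt (2 * N : ℕ) + F) := by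
      have := pow_nonneg (one_add_log_nonneg F) Cb
      positivity
    apply mul_le_mul_of_nonneg_left _ hpos
    apply mul_le_mul (Real.sqrt_le_sqrt (rc_sq_sum hL hα)) (Real.sqrt_le_sqrt (rc_sq_sum hL hβ))
      (Real.sqrt_nonneg _) (Real.sqrt_nonneg _)

end Pool.Agent.Y826.ZL.Y61
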