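import Pool.Agent.Y826.ZL.Y61.T5

/-!
# Y826-TII: the second part, all `u, v`
-/

open Finset

namespace Pool.Agent.Y826.ZL.Y61

open Pool.Agent.Y826.Z

variable {K : ℕ}

/-- from the original sum to `Es` -/
lemma term_eq (M N D : ℕ) (α β : ℕ → ℝ) (P t x0 : ℕ) :
    ∑ m ∈ Ioc M (2 * M), ∑ n ∈ Ioc N (2 * N), α m * β n *
        ((1 / (Nat.totient P : ℝ)) * ind ((m * n).Coprime P) * br D t x0 (m * n)) =
      (1 / (Nat.totient P : ℝ)) * Es M N D α β P t x0 := by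
  have hsub : ∀ A : ℕ, Ioc A (2 * A) ⊆ Icc 1 (2 * A) := by
    intro A x hx
    rw [mem_Ioc] at hx
    rw [mem_Icc]
    omega
  unfold Es
  rw [mul_sum]
  rw [← sum_subset (hsub M)]
  · refine sum_congr rfl fun m hm => ?_
    rw [mul_sum]
    rw [← sum_subset (hsub N)]
    · refine sum_congr rfl fun n hn => ?_
      rw [mem_Ioc] at hm hn
      unfold rc
      by_cases h1 : m.Coprime P
      · by_cases h2 : n.Coprime P
        · rw [if_pos ⟨hm.1, h1⟩, if_pos ⟨hn.1, h2⟩, ind_of (Nat.Coprime.mul_left h1 h2)]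
          ring
        · rw [if_pos ⟨hm.1, h1⟩, if_neg (fun h => h2 h.2)]
          rw [ind_not (fun h => h2 (Nat.Coprime.coprime_mul_left h))]
          ring
      · rw [if_neg (fun h => h1 h.2)]
        rw [ind_not (fun h => h1 (Nat.Coprime.coprime_mul_right h))]
        ring
    · intro n hn hn'
      have : rc N P β n = 0 := by
        unfold rc
        rw [if_neg]
        rintro ⟨h, -⟩
        apply hn'
        rw [mem_Ioc]
        rw [mem_Icc] at hn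
        exact ⟨h, hn.2⟩
      rw [this]; ring
  · intro m hm hm'
    have : rc M P α m = 0 := by
      unfold rc
      rw [if_neg]
      rintro ⟨h, -⟩
      apply hm'
      rw [mem_Ioc]
      rw [mem_Icc] at hm
      exact ⟨h, hm.2⟩
    rw [this]; simp

/-- the reciprocals of the totients -/
lemma sum_totient (UV : Finset ((Fin K → ℕ) × (Fin K → ℕ))) (R : ℕ)
    (hUV : ∀ p ∈ UV, (∀ j, 1 ≤ p.1 j ∧ p.1 j ≤ R) ∧ (∀ j, 1 ≤ p.2 j ∧ p.2 j ≤ R)) :
    ∑ p ∈ UV, 1 / (Nat.totient (Pr p.1 * Pr p.2) : ℝ) ≤ (1 + Real.log R) ^ (4 * K) := by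
  classical
  have h1 : ∀ p ∈ UV, 1 / (Nat.totient (Pr p.1 * Pr p.2) : ℝ) ≤
      (∏ j, tau (p.1 j) ^ 1 / (p.1 j : ℝ)) * ∏ j, tau (p.2 j) ^ 1 / (p.2 j : ℝ) := by
    intro p hp
    obtain ⟨h2, h3⟩ := hUV p hp
    have hpos : 0 < Pr p.1 * Pr p.2 := Nat.mul_pos (Pr_pos fun j => (h2 j).1) (Pr_pos fun j => (h3 j).1)
    refine (one_div_totient_le _ hpos).trans ?_
    rw [prod_div_distrib, prod_div_distrib, div_mul_div_comm]
    have e1 : ((Pr p.1 * Pr p.2 : ℕ) : ℝ) = (∏ j, (p.1 j : ℝ)) * ∏ j, (p.2 j : ℝ) := by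
      unfold Pr; push_cast; rfl
    rw [e1]
    apply div_le_div_of_nonneg_right
    · refine (tau_mul_le _ _).trans ?_
      simp only [pow_one]
      exact mul_le_mul (tau_prod_le _ _) (tau_prod_le _ _) (tau_nonneg _) (prod_nonneg fun j _ => tau_nonneg _)
    · positivity
  have hnn : ∀ x : Fin K → ℕ, 0 ≤ ∏ j, tau (x j) ^ 1 / (x j : ℝ) := fun x =>
    prod_nonneg fun j _ => div_nonneg (pow_nonneg (tau_nonneg _) _) (Nat.cast_nonneg _)
  refine (sum_le_sum h1).trans ?_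
  set Bx := Fintype.piFinset (fun _ : Fin K => Icc 1 R) with hBx
  have h4 : ∑ p ∈ UV, (∏ j, tau (p.1 j) ^ 1 / (p.1 j : ℝ)) * ∏ j, tau (p.2 j) ^ 1 / (p.2 j : ℝ) ≤
      ∑ p ∈ Bx ×ˢ Bx, (∏ j, tau (p.1 j) ^ 1 / (p.1 j : ℝ)) * ∏ j, tau (p.2 j) ^ 1 / (p.2 j : ℝ) := by
    apply sum_le_sum_of_subset_of_nonneg
    · intro p hp
      obtain ⟨h2, h3⟩ := hUV p hp
      rw [mem_product, hBx, Fintype.mem_piFinset, Fintype.mem_piFinset]
      exact ⟨fun j => mem_Icc.mpr (h2 j), fun j => mem_Icc.mpr (h3 j)⟩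
    · intro p _ _
      exact mul_nonneg (hnn _) (hnn _)
  refine h4.trans ?_
  rw [sum_product]
  simp only
  rw [← sum_mul_sum]
  have h5 : ∑ x ∈ Bx, ∏ j, tau (x j) ^ 1 / (x j : ℝ) ≤ (1 + Real.log R) ^ (2 * K) := by
    have h9 := Finset.prod_univ_sum (fun _ : Fin K => Icc 1 R) (fun (_ : Fin K) (y : ℕ) => tau y ^ 1 / (y : ℝ))
    rw [hBx, ← h9, prod_const, card_univ, Fintype.card_fin, pow_mul]
    exact pow_le_pow_left₀ (sum_nonneg fun y _ => div_nonneg (pow_nonneg (tau_nonneg _) _) (Nat.cast_nonneg _))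
      (by simpa using tau_moment_div 1 R) K
  have h6 : 0 ≤ ∑ x ∈ Bx, ∏ j, tau (x j) ^ 1 / (x j : ℝ) := sum_nonneg fun x _ => hnn x
  calc _ ≤ (1 + Real.log R) ^ (2 * K) * (1 + Real.log R) ^ (2 * K) := mul_le_mul h5 h5 h6 (h6.trans h5)
    _ = _ := by rw [← pow_add]; congr 1; omega

/-- the whole second part -/
lemma second {h : Fin K → ℤ × ℤ} {W b D F : ℕ} {g : Fin K → Fin 5} {S : Finset (Fin K → ℕ)}
    (hS : ∀ q ∈ S, Squarefree (W * Pr q)) (hF : ∀ q ∈ S, W * Pr (fe g D q) ≤ F)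
    {x0 : (Fin K → ℕ) → ℕ} (hx0 : GoodX h W b D g S x0) {M N R : ℕ} (hR : ∀ q ∈ S, ∀ j, q j ≤ R)
    {α β : ℕ → ℝ} {Bd : ℝ} (hBd : 0 ≤ Bd)
    (hb : ∀ (S' : Finset (Fin K → ℕ)) (u v : Fin K → ℕ), Fib W b D F g S' u v → GoodX h W b D g S' x0 →
      (∑ q ∈ S', |Es M N D α β (Pr u * Pr v) (W * Pr (fe g D q)) (x0 q)|) ^ 2 ≤ Bd)
    (c : (Fin K → ℕ) → ℝ) (hc : ∀ q, |c q| ≤ 1) :
    |∑ q ∈ S, c q * ∑ m ∈ Ioc M (2 * M), ∑ n ∈ Ioc N (2 * N), α m * β n *
        ((1 / (Nat.totient (Pr (fu g D q) * Pr (fv g D q)) : ℝ)) *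
          ind ((m * n).Coprime (Pr (fu g D q) * Pr (fv g D q))) * br D (W * Pr (fe g D q)) (x0 q) (m * n))| ≤
      (1 + Real.log R) ^ (4 * K) * Real.sqrt Bd := by
  classical
  set UV := S.image (fun q => (fu g D q, fv g D q)) with hUV
  have h1 : |∑ q ∈ S, c q * ∑ m ∈ Ioc M (2 * M), ∑ n ∈ Ioc N (2 * N), α m * β n *
        ((1 / (Nat.totient (Pr (fu g D q) * Pr (fv g D q)) : ℝ)) *
          ind ((m * n).Coprime (Pr (fu g D q) * Pr (fv g D q))) * br D (W * Pr (fe g D q)) (x0 q) (m * n))| ≤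
      ∑ q ∈ S, (1 / (Nat.totient (Pr (fu g D q) * Pr (fv g D q)) : ℝ)) *
        |Es M N D α β (Pr (fu g D q) * Pr (fv g D q)) (W * Pr (fe g D q)) (x0 q)| := by
    refine (abs_sum_le_sum_abs _ _).trans (sum_le_sum fun q _ => ?_)
    rw [term_eq, abs_mul, abs_mul, abs_of_nonneg (by positivity : (0 : ℝ) ≤ 1 / (Nat.totient (Pr (fu g D q) * Pr (fv g D q)) : ℝ))]
    have hnn : 0 ≤ (1 / (Nat.totient (Pr (fu g D q) * Pr (fv g D q)) : ℝ)) *
        |Es M N D α β (Pr (fu g D q) * Pr (fv g D q)) (W * Pr (fe g D q)) (x0 q)| :=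
      mul_nonneg (by positivity) (abs_nonneg _)
    calc _ ≤ 1 * _ := mul_le_mul_of_nonneg_right (hc q) hnn
      _ = _ := one_mul _
  refine h1.trans ?_
  rw [← sum_fiberwise_of_maps_to (s := S) (t := UV) (g := fun q => (fu g D q, fv g D q))
    (fun q hq => mem_image_of_mem _ hq)]
  have h2 : ∀ p ∈ UV, ∑ q ∈ S.filter (fun q => (fu g D q, fv g D q) = p),
      (1 / (Nat.totient (Pr (fu g D q) * Pr (fv g D q)) : ℝ)) *
        |Es M N D α β (Pr (fu g D q) * Pr (fv g D q)) (W * Pr (fe g D q)) (x0 q)| ≤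
      1 / (Nat.totient (Pr p.1 * Pr p.2) : ℝ) * Real.sqrt Bd := by
    intro p _
    have e1 : ∑ q ∈ S.filter (fun q => (fu g D q, fv g D q) = p),
      (1 / (Nat.totient (Pr (fu g D q) * Pr (fv g D q)) : ℝ)) *
        |Es M N D α β (Pr (fu g D q) * Pr (fv g D q)) (W * Pr (fe g D q)) (x0 q)| =
      1 / (Nat.totient (Pr p.1 * Pr p.2) : ℝ) * ∑ q ∈ S.filter (fun q => (fu g D q, fv g D q) = p),
        |Es M N D α β (Pr p.1 * Pr p.2) (W * Pr (fe g D q)) (x0 q)| := by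
      rw [mul_sum]
      refine sum_congr rfl fun q hq => ?_
      have := (mem_filter.mp hq).2
      rw [← this]
    rw [e1]
    apply mul_le_mul_of_nonneg_left _ (by positivity)
    apply Real.le_sqrt_of_sq_le
    apply hb
    · refine ⟨fun q hq => hS q (mem_filter.mp hq).1, fun q hq => ?_, fun q hq => ?_, fun q hq => hF q (mem_filter.mp hq).1⟩
      · have := (mem_filter.mp hq).2
        rw [← this]
      · have := (mem_filter.mp hq).2
        rw [← this]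
    · intro q hq
      exact hx0 q (mem_filter.mp hq).1
  refine (sum_le_sum h2).trans ?_
  rw [← sum_mul]
  apply mul_le_mul_of_nonneg_right _ (Real.sqrt_nonneg _)
  apply sum_totient
  intro p hp
  obtain ⟨q, hq, rfl⟩ := mem_image.mp hp
  have hqj : ∀ j, Squarefree (q j) := sqf_of_Pr (Squarefree.of_mul_right (hS q hq))
  have hqj1 : ∀ j, 1 ≤ q j := fun j => Nat.pos_of_ne_zero (hqj j).ne_zero
  refine ⟨fun j => ?_, fun j => ?_⟩
  · show 1 ≤ fu g D q j ∧ fu g D q j ≤ R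
    unfold fu
    split_ifs
    · exact ⟨rop_pos _ _, (rop_le (hqj j)).trans (hR q hq j)⟩
    · exact ⟨le_rfl, (hqj1 j).trans (hR q hq j)⟩
  · show 1 ≤ fv g D q j ∧ fv g D q j ≤ R
    unfold fv
    split_ifs
    · exact ⟨rop_pos _ _, (rop_le (hqj j)).trans (hR q hq j)⟩
    · exact ⟨le_rfl, (hqj1 j).trans (hR q hq j)⟩

end Pool.Agent.Y826.ZL.Y61
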