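import Pool.Agent.Y826.ZL.Y61.T6

/-!
# Y826-TII: the first part
-/

open Finset

namespace Pool.Agent.Y826.ZL.Y61

open Pool.Agent.Y826.Z

variable {K : ℕ}

/-- the weight -/
noncomputable def thf (g : Fin K → Fin 5) (a : Fin K → ℕ) : ℝ :=
  ∏ j, if g j = 2 ∨ g j = 3 ∨ g j = 4 then (a j : ℝ) else 1

open Classical in
/-- the coefficients in terms of the four parts -/
noncomputable def ccf (g : Fin K → Fin 5) (D : ℕ) (S : Finset (Fin K → ℕ)) (c : (Fin K → ℕ) → ℝ)
    (a r u v : Fin K → ℕ) : ℝ :=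
  if (fun j => a j * r j * u j * v j) ∈ S ∧ fa g D (fun j => a j * r j * u j * v j) = a ∧
    fr g (fun j => a j * r j * u j * v j) = r ∧ fu g D (fun j => a j * r j * u j * v j) = u ∧
    fv g D (fun j => a j * r j * u j * v j) = v then c (fun j => a j * r j * u j * v j) else 0

lemma ccf_dec {g : Fin K → Fin 5} {D : ℕ} {S : Finset (Fin K → ℕ)} {c : (Fin K → ℕ) → ℝ}
    {q : Fin K → ℕ} (hq : q ∈ S) (hqj : ∀ j, Squarefree (q j)) :
    ccf g D S c (fa g D q) (fr g q) (fu g D q) (fv g D q) = c q := by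
  have h : (fun j => fa g D q j * fr g q j * fu g D q j * fv g D q j) = q := funext fun j => all_mul hqj j
  unfold ccf
  rw [h, if_pos ⟨hq, rfl, rfl, rfl, rfl⟩]

lemma ccf_ne {g : Fin K → Fin 5} {D : ℕ} {S : Finset (Fin K → ℕ)} {c : (Fin K → ℕ) → ℝ}
    {a r u v : Fin K → ℕ} (h : ccf g D S c a r u v ≠ 0) :
    ∃ q ∈ S, fa g D q = a ∧ fr g q = r ∧ fu g D q = u ∧ fv g D q = v := by
  unfold ccf at h
  split_ifs at h with h1
  · exact ⟨_, h1⟩
  · exact absurd rfl h

lemma ccf_abs {g : Fin K → Fin 5} {D : ℕ} {S : Finset (Fin K → ℕ)} {c : (Fin K → ℕ) → ℝ}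
    (hc : ∀ q, |c q| ≤ 1) (a r u v : Fin K → ℕ) : |ccf g D S c a r u v| ≤ 1 := by
  unfold ccf
  split_ifs
  · exact hc _
  · simp

/-- change of summation -/
lemma sum_dec {g : Fin K → Fin 5} {D : ℕ} {S : Finset (Fin K → ℕ)} (hS : ∀ q ∈ S, ∀ j, Squarefree (q j))
    (c : (Fin K → ℕ) → ℝ) (G : (Fin K → ℕ) → (Fin K → ℕ) → (Fin K → ℕ) → (Fin K → ℕ) → ℝ) :
    ∑ q ∈ S, c q * G (fa g D q) (fr g q) (fu g D q) (fv g D q) =
      ∑ a ∈ S.image (fa g D), ∑ r ∈ S.image (fr g), ∑ u ∈ S.image (fu g D), ∑ v ∈ S.image (fv g D),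
        ccf g D S c a r u v * G a r u v := by
  classical
  set dec : (Fin K → ℕ) → (Fin K → ℕ) × (Fin K → ℕ) × (Fin K → ℕ) × (Fin K → ℕ) := fun q =>
    (fa g D q, fr g q, fu g D q, fv g D q) with hdec
  have hinj : Set.InjOn dec (S : Set (Fin K → ℕ)) := by
    intro q hq q' hq' he
    simp only [hdec, Prod.mk.injEq] at he
    obtain ⟨h1, h2, h3, h4⟩ := he
    funext j
    rw [← all_mul (g := g) (D := D) (hS q hq) j, ← all_mul (g := g) (D := D) (hS q' hq') j, h1, h2, h3, h4]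
  have e1 : ∑ a ∈ S.image (fa g D), ∑ r ∈ S.image (fr g), ∑ u ∈ S.image (fu g D), ∑ v ∈ S.image (fv g D),
        ccf g D S c a r u v * G a r u v =
      ∑ p ∈ S.image (fa g D) ×ˢ (S.image (fr g) ×ˢ (S.image (fu g D) ×ˢ S.image (fv g D))),
        ccf g D S c p.1 p.2.1 p.2.2.1 p.2.2.2 * G p.1 p.2.1 p.2.2.1 p.2.2.2 := by
    rw [sum_product]
    refine sum_congr rfl fun a _ => ?_
    rw [sum_product]
    refine sum_congr rfl fun r _ => ?_
    rw [sum_product]
  rw [e1]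
  have hsub : S.image dec ⊆ S.image (fa g D) ×ˢ (S.image (fr g) ×ˢ (S.image (fu g D) ×ˢ S.image (fv g D))) := by
    intro p hp
    obtain ⟨q, hq, rfl⟩ := mem_image.mp hp
    simp only [hdec, mem_product]
    exact ⟨mem_image_of_mem _ hq, mem_image_of_mem _ hq, mem_image_of_mem _ hq, mem_image_of_mem _ hq⟩
  rw [← sum_subset hsub]
  · rw [sum_image hinj]
    refine sum_congr rfl fun q hq => ?_
    simp only [hdec]
    rw [ccf_dec hq (hS q hq)]
  · intro p _ hp
    have : ccf g D S c p.1 p.2.1 p.2.2.1 p.2.2.2 = 0 := by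
      by_contra hne
      obtain ⟨q, hq, h1, h2, h3, h4⟩ := ccf_ne hne
      apply hp
      rw [mem_image]
      refine ⟨q, hq, ?_⟩
      simp only [hdec, h1, h2, h3, h4]
    rw [this, zero_mul]

/-- the sum of the reciprocals of the weights over the occurring pairs -/
lemma sum_th {g : Fin K → Fin 5} {D : ℕ} {S : Finset (Fin K → ℕ)} (hS : ∀ q ∈ S, ∀ j, Squarefree (q j))
    (Q : Fin K → ℝ) (hQ : ∀ j, 0 < Q j) (hSQ : ∀ q ∈ S, ∀ j, (q j : ℝ) ≤ 2 * Q j)
    {R : ℕ} (hR : ∀ q ∈ S, ∀ j, q j ≤ R) :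
    ∑ p ∈ S.image (fun q => (fa g D q, fr g q)), 1 / thf g p.1 ≤
      (2 * (1 + Real.log R)) ^ K * (szg Q g 0 * szg Q g 1) := by
  classical
  -- the map to `a r`
  set E : Fin K → Finset ℕ := fun j => if g j = 0 ∨ g j = 1 then Icc 1 ⌊2 * Q j⌋₊ else Icc 1 R with hE
  set wt : Fin K → ℕ → ℝ := fun j e => if g j = 0 ∨ g j = 1 then 1 else 1 / (e : ℝ) with hwt
  have hwt0 : ∀ j e, 0 ≤ wt j e := by
    intro j e
    simp only [hwt]
    split_ifs
    · norm_num
    · positivity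
  set φ : (Fin K → ℕ) × (Fin K → ℕ) → (Fin K → ℕ) := fun p j => p.1 j * p.2 j with hφ
  have hφv : ∀ q, φ (fa g D q, fr g q) = fe g D q := by
    intro q
    funext j
    simp only [hφ]
    exact fa_mul_fr g D q j
  have hth : ∀ q ∈ S, 1 / thf g (fa g D q) = ∏ j, wt j (fe g D q j) := by
    intro q _
    unfold thf
    rw [one_div, ← prod_inv_distrib]
    refine prod_congr rfl fun j _ => ?_
    simp only [hwt]
    unfold fa fe
    rcases g_cases g j with h | h | h | h | h <;> simp [h]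
  have hinj : Set.InjOn φ (S.image (fun q => (fa g D q, fr g q)) : Set ((Fin K → ℕ) × (Fin K → ℕ))) := by
    intro p hp p' hp' he
    rw [coe_image] at hp hp'
    obtain ⟨q, hq, rfl⟩ := hp
    obtain ⟨q', hq', rfl⟩ := hp'
    rw [hφv, hφv] at he
    have hj : ∀ j, fe g D q j = fe g D q' j := fun j => congrFun he j
    ext j
    · have := hj j
      show fa g D q j = fa g D q' j
      unfold fe at this
      unfold fa
      rcases g_cases g j with h | h | h | h | h <;> simp [h] at this ⊢ <;> exact this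
    · have := hj j
      show fr g q j = fr g q' j
      unfold fe at this
      unfold fr
      rcases g_cases g j with h | h | h | h | h <;> simp [h] at this ⊢ <;> exact this
  have h1 : ∑ p ∈ S.image (fun q => (fa g D q, fr g q)), 1 / thf g p.1 =
      ∑ e ∈ (S.image (fun q => (fa g D q, fr g q))).image φ, ∏ j, wt j (e j) := by
    rw [sum_image hinj]
    refine sum_congr rfl fun p hp => ?_
    obtain ⟨q, hq, rfl⟩ := mem_image.mp hp
    rw [hφv]
    exact hth q hq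
  rw [h1]
  have h2 : ∑ e ∈ (S.image (fun q => (fa g D q, fr g q))).image φ, ∏ j, wt j (e j) ≤
      ∑ e ∈ Fintype.piFinset E, ∏ j, wt j (e j) := by
    apply sum_le_sum_of_subset_of_nonneg
    · intro e he
      obtain ⟨p, hp, rfl⟩ := mem_image.mp he
      obtain ⟨q, hq, rfl⟩ := mem_image.mp hp
      rw [hφv, Fintype.mem_piFinset]
      intro j
      have hqj := hS q hq j
      have hqj1 : 1 ≤ q j := Nat.pos_of_ne_zero hqj.ne_zero
      simp only [hE]
      unfold fe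
      split_ifs
      · rw [mem_Icc]
        exact ⟨hqj1, Nat.le_floor (hSQ q hq j)⟩
      · rw [mem_Icc]
        exact ⟨smp_pos _ _, (smp_le hqj).trans (hR q hq j)⟩
    · intro e _ _
      exact prod_nonneg fun j _ => hwt0 j _
  refine h2.trans ?_
  rw [← Finset.prod_univ_sum E wt]
  have hlog := one_le_one_add_log R
  have h3 : ∀ j, ∑ e ∈ E j, wt j e ≤ (2 * (1 + Real.log R)) *
      ((if g j = 0 then Q j else 1) * (if g j = 1 then Q j else 1)) := by
    intro j
    simp only [hE, hwt]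
    rcases g_cases g j with h | h | h | h | h
    · simp only [h, true_or, if_true, sum_const, nsmul_eq_mul, Nat.card_Icc, mul_one]
      rw [if_neg (by decide), mul_one]
      have h4 : ((⌊2 * Q j⌋₊ + 1 - 1 : ℕ) : ℝ) ≤ 2 * Q j := by
        rw [Nat.add_sub_cancel]
        exact Nat.floor_le (by linarith [hQ j])
      nlinarith [hQ j]
    · simp only [h, or_true, if_true, sum_const, nsmul_eq_mul, Nat.card_Icc, mul_one]
      rw [if_neg (by decide), one_mul]
      have h4 : ((⌊2 * Q j⌋₊ + 1 - 1 : ℕ) : ℝ) ≤ 2 * Q j := by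
        rw [Nat.add_sub_cancel]
        exact Nat.floor_le (by linarith [hQ j])
      nlinarith [hQ j]
    · have h6 : ¬ (g j = 0 ∨ g j = 1) := by rw [h]; decide
      have h7 : ¬ g j = 0 := fun h' => h6 (Or.inl h')
      have h8 : ¬ g j = 1 := fun h' => h6 (Or.inr h')
      simp only [if_neg h6, if_neg h7, if_neg h8]
      have h5 := Pool.Agent.TH935.DSB.harm R
      linarith
    · have h6 : ¬ (g j = 0 ∨ g j = 1) := by rw [h]; decide
      have h7 : ¬ g j = 0 := fun h' => h6 (Or.inl h')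
      have h8 : ¬ g j = 1 := fun h' => h6 (Or.inr h')
      simp only [if_neg h6, if_neg h7, if_neg h8]
      have h5 := Pool.Agent.TH935.DSB.harm R
      linarith
    · have h6 : ¬ (g j = 0 ∨ g j = 1) := by rw [h]; decide
      have h7 : ¬ g j = 0 := fun h' => h6 (Or.inl h')
      have h8 : ¬ g j = 1 := fun h' => h6 (Or.inr h')
      simp only [if_neg h6, if_neg h7, if_neg h8]
      have h5 := Pool.Agent.TH935.DSB.harm R
      linarith
  calc ∏ j, ∑ e ∈ E j, wt j e ≤ ∏ j, ((2 * (1 + Real.log R)) *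
      ((if g j = 0 then Q j else 1) * (if g j = 1 then Q j else 1))) :=
        prod_le_prod (fun j _ => sum_nonneg fun e _ => hwt0 j e) fun j _ => h3 j
    _ = _ := by
        unfold szg
        rw [prod_filter, prod_filter]
        simp only [prod_mul_distrib, prod_const, card_univ, Fintype.card_fin, mul_pow]

/-- the first part, by Cauchy-Schwarz -/
lemma first {h : Fin K → ℤ × ℤ} {W b D : ℕ} {g : Fin K → Fin 5} {S : Finset (Fin K → ℕ)}
    (hS : ∀ q ∈ S, ∀ j, Squarefree (q j)) (c : (Fin K → ℕ) → ℝ) {M N : ℕ} (α β : ℕ → ℝ) :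
    (∑ q ∈ S, c q * ∑ m ∈ Ioc M (2 * M), ∑ n ∈ Ioc N (2 * N), α m * β n *
        (ind (Lc h W b (fa g D q) (fr g q) (m * n)) * Du h (fu g D q) (fv g D q) (m * n))) ^ 2 ≤
      ((∑ p ∈ S.image (fun q => (fa g D q, fr g q)), 1 / thf g p.1) * ∑ m ∈ Ioc M (2 * M), α m ^ 2) *
        SS h W b M N (S.image (fa g D)) (S.image (fr g)) (S.image (fu g D)) (S.image (fv g D)) (thf g)
          (ccf g D S c) β := by
  classical
  set SA := S.image (fa g D) with hSA
  set SB := S.image (fr g) with hSB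
  set SU := S.image (fu g D) with hSU
  set SV := S.image (fv g D) with hSV
  set Occ := S.image (fun q => (fa g D q, fr g q)) with hOcc
  set I : (Fin K → ℕ) → (Fin K → ℕ) → ℕ → ℝ := fun a r m =>
    ∑ u ∈ SU, ∑ v ∈ SV, ∑ n ∈ Ioc N (2 * N),
      ccf g D S c a r u v * β n * ind (Lc h W b a r (m * n)) * Du h u v (m * n) with hI
  have hthpos : ∀ a ∈ SA, 0 < thf g a := by
    intro a ha
    obtain ⟨q, hq, rfl⟩ := mem_image.mp ha
    unfold thf
    apply prod_pos
    intro j _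
    split_ifs with h1
    · have : fa g D q j = smp D (q j) := by
        unfold fa
        rcases h1 with h1 | h1 | h1 <;> simp [h1]
      rw [this]
      exact_mod_cast smp_pos _ _
    · norm_num
  -- change of summation
  have e1 : ∑ q ∈ S, c q * ∑ m ∈ Ioc M (2 * M), ∑ n ∈ Ioc N (2 * N), α m * β n *
        (ind (Lc h W b (fa g D q) (fr g q) (m * n)) * Du h (fu g D q) (fv g D q) (m * n)) =
      ∑ a ∈ SA, ∑ r ∈ SB, ∑ m ∈ Ioc M (2 * M), α m * I a r m := by
    rw [sum_dec hS c (fun a r u v => ∑ m ∈ Ioc M (2 * M), ∑ n ∈ Ioc N (2 * N), α m * β n *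
      (ind (Lc h W b a r (m * n)) * Du h u v (m * n)))]
    refine sum_congr rfl fun a _ => sum_congr rfl fun r _ => ?_
    have e2 : ∀ (F : (Fin K → ℕ) → (Fin K → ℕ) → ℕ → ℝ), ∑ u ∈ SU, ∑ v ∈ SV, ∑ m ∈ Ioc M (2 * M), F u v m =
        ∑ m ∈ Ioc M (2 * M), ∑ u ∈ SU, ∑ v ∈ SV, F u v m := by
      intro F
      calc ∑ u ∈ SU, ∑ v ∈ SV, ∑ m ∈ Ioc M (2 * M), F u v m
          = ∑ u ∈ SU, ∑ m ∈ Ioc M (2 * M), ∑ v ∈ SV, F u v m := sum_congr rfl fun u _ => sum_comm
        _ = ∑ m ∈ Ioc M (2 * M), ∑ u ∈ SU, ∑ v ∈ SV, F u v m := sum_comm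
    have e3 : ∀ u ∈ SU, ∀ v ∈ SV, ccf g D S c a r u v * ∑ m ∈ Ioc M (2 * M), ∑ n ∈ Ioc N (2 * N), α m * β n *
        (ind (Lc h W b a r (m * n)) * Du h u v (m * n)) =
        ∑ m ∈ Ioc M (2 * M), α m * ∑ n ∈ Ioc N (2 * N),
          ccf g D S c a r u v * β n * ind (Lc h W b a r (m * n)) * Du h u v (m * n) := by
      intro u _ v _
      rw [mul_sum]
      refine sum_congr rfl fun m _ => ?_
      rw [mul_sum, mul_sum]
      refine sum_congr rfl fun n _ => ?_
      ring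
    rw [sum_congr rfl fun u hu => sum_congr rfl fun v hv => e3 u hu v hv, e2]
    refine sum_congr rfl fun m _ => ?_
    simp only [hI]
    rw [mul_sum]
    refine sum_congr rfl fun u _ => ?_
    rw [mul_sum]
  have hI0 : ∀ p ∈ SA ×ˢ SB, p ∉ Occ → ∀ m, I p.1 p.2 m = 0 := by
    intro p _ hp m
    simp only [hI]
    refine sum_eq_zero fun u _ => sum_eq_zero fun v _ => sum_eq_zero fun n _ => ?_
    have : ccf g D S c p.1 p.2 u v = 0 := by
      by_contra hne
      obtain ⟨q, hq, h1, h2, _, _⟩ := ccf_ne hne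
      apply hp
      rw [hOcc, mem_image]
      exact ⟨q, hq, by rw [h1, h2]⟩
    rw [this]; ring
  have hOccsub : Occ ⊆ SA ×ˢ SB := by
    intro p hp
    obtain ⟨q, hq, rfl⟩ := mem_image.mp hp
    rw [mem_product]
    exact ⟨mem_image_of_mem _ hq, mem_image_of_mem _ hq⟩
  have e4 : ∑ a ∈ SA, ∑ r ∈ SB, ∑ m ∈ Ioc M (2 * M), α m * I a r m =
      ∑ p ∈ Occ, ∑ m ∈ Ioc M (2 * M), α m * I p.1 p.2 m := by
    rw [← sum_product' SA SB (fun a r => ∑ m ∈ Ioc M (2 * M), α m * I a r m)]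
    symm
    apply sum_subset hOccsub
    intro p hp hp'
    refine sum_eq_zero fun m _ => ?_
    rw [hI0 p hp hp' m, mul_zero]
  rw [e1, e4, ← sum_product' Occ (Ioc M (2 * M)) (fun p m => α m * I p.1 p.2 m)]
  -- Cauchy-Schwarz
  have hcs := Finset.sum_mul_sq_le_sq_mul_sq (Occ ×ˢ Ioc M (2 * M))
    (fun z => α z.2 / Real.sqrt (thf g z.1.1)) (fun z => Real.sqrt (thf g z.1.1) * I z.1.1 z.1.2 z.2)
  have hthO : ∀ z ∈ Occ ×ˢ Ioc M (2 * M), 0 < thf g z.1.1 := by
    intro z hz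
    have h1 := hOccsub (mem_product.mp hz).1
    exact hthpos _ (mem_product.mp h1).1
  have e5 : ∑ z ∈ Occ ×ˢ Ioc M (2 * M), α z.2 / Real.sqrt (thf g z.1.1) * (Real.sqrt (thf g z.1.1) * I z.1.1 z.1.2 z.2) =
      ∑ z ∈ Occ ×ˢ Ioc M (2 * M), α z.2 * I z.1.1 z.1.2 z.2 := by
    refine sum_congr rfl fun z hz => ?_
    have h1 : Real.sqrt (thf g z.1.1) ≠ 0 := (Real.sqrt_pos.mpr (hthO z hz)).ne'
    field_simp
  have e6 : ∑ z ∈ Occ ×ˢ Ioc M (2 * M), (α z.2 / Real.sqrt (thf g z.1.1)) ^ 2 =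
      (∑ p ∈ Occ, 1 / thf g p.1) * ∑ m ∈ Ioc M (2 * M), α m ^ 2 := by
    rw [sum_mul_sum, ← sum_product']
    refine sum_congr rfl fun z hz => ?_
    rw [div_pow, Real.sq_sqrt (hthO z hz).le]
    ring
  have e7 : ∑ z ∈ Occ ×ˢ Ioc M (2 * M), (Real.sqrt (thf g z.1.1) * I z.1.1 z.1.2 z.2) ^ 2 ≤
      SS h W b M N SA SB SU SV (thf g) (ccf g D S c) β := by
    have e8 : ∑ z ∈ Occ ×ˢ Ioc M (2 * M), (Real.sqrt (thf g z.1.1) * I z.1.1 z.1.2 z.2) ^ 2 =
        ∑ p ∈ Occ, thf g p.1 * ∑ m ∈ Ioc M (2 * M), I p.1 p.2 m ^ 2 := by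
      rw [sum_product]
      refine sum_congr rfl fun p hp => ?_
      rw [mul_sum]
      refine sum_congr rfl fun m hm => ?_
      rw [mul_pow, Real.sq_sqrt (hthpos _ (mem_product.mp (hOccsub hp)).1).le]
    rw [e8]
    have e9 : SS h W b M N SA SB SU SV (thf g) (ccf g D S c) β =
        ∑ p ∈ SA ×ˢ SB, thf g p.1 * ∑ m ∈ Ioc M (2 * M), I p.1 p.2 m ^ 2 := by
      unfold SS
      rw [sum_product]
    rw [e9]
    apply sum_le_sum_of_subset_of_nonneg hOccsub
    intro p hp _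
    exact mul_nonneg (hthpos _ (mem_product.mp hp).1).le (sum_nonneg fun m _ => sq_nonneg _)
  rw [e5, e6] at hcs
  refine hcs.trans (mul_le_mul_of_nonneg_left e7 ?_)
  rw [← e6]
  exact sum_nonneg fun z _ => sq_nonneg _

end Pool.Agent.Y826.ZL.Y61
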